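import Mathlib

/-!
# Extension of derivations to finite extensions
-/

namespace Pool.Agent.KS6_77.VJ

open scoped TensorProduct KaehlerDifferential

theorem exists_der_ext {k K F : Type*} [Field k] [CharZero k] [Field K] [Field F] [Algebra k K]
    [Algebra K F] [Algebra k F] [IsScalarTower k K F] [FiniteDimensional K F]
    (D : Derivation k K K) :
    ∃ D' : Derivation k F F, ∀ x : K, D' (algebraMap K F x) = algebraMap K F (D x) := by
  have : CharZero K := charZero_of_injective_algebraMap (algebraMap k K).injective
  have : Algebra.FormallyEtale K F := Algebra.FormallyEtale.of_isSeparable K F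
  let e := KaehlerDifferential.tensorKaehlerEquivOfFormallyEtale k K F
  let l : Ω[K⁄k] →ₗ[K] F := (Algebra.linearMap K F).comp D.liftKaehlerDifferential
  let m : Ω[F⁄k] →ₗ[F] F := (l.liftBaseChange F).comp e.symm.toLinearMap
  refine ⟨m.compDer (KaehlerDifferential.D k F), fun x => ?_⟩
  change (l.liftBaseChange F) (e.symm (KaehlerDifferential.D k F (algebraMap K F x))) = _
  rw [KaehlerDifferential.tensorKaehlerEquivOfFormallyEtale_symm_D_algebraMap]
  rw [LinearMap.liftBaseChange_tmul, one_smul]
  change algebraMap K F (D.liftKaehlerDifferential (KaehlerDifferential.D k K x)) = _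
  rw [Derivation.liftKaehlerDifferential_comp_D]

end Pool.Agent.KS6_77.VJ
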