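import Pool.Agent.KS6_77.VJ.Der
import Pool.Agent.KS6_77.VJ.Ext
import Pool.Agent.KS6_16.VJ.Defs2

/-!
# The inequality of orders at all places of the cover
-/

namespace Pool.Agent.KS6_77.VJ

open IsDedekindDomain KS6_16.VJ

section comap

variable {k K F : Type} [Field k] [Field K] [Field F] [Algebra k K] [Algebra K F] [Algebra k F]
  [IsScalarTower k K F]

/-- The place below. -/
abbrev dn (K : Type) {F : Type} [Field K] [Field F] [Algebra K F] (O : ValuationSubring F) :
    ValuationSubring K := O.comap (algebraMap K F)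

lemma dn_le_iff (O : ValuationSubring F) (x y : K) : (dn K O).valuation x ≤ (dn K O).valuation y ↔
    O.valuation (algebraMap K F x) ≤ O.valuation (algebraMap K F y) := by
  by_cases hy : y = 0
  · rw [hy, map_zero, map_zero, map_zero, le_zero_iff, le_zero_iff, map_eq_zero, map_eq_zero,
      map_eq_zero]
  · have hy' : algebraMap K F y ≠ 0 := by simpa using hy
    rw [← div_le_one₀ (val_pos hy), ← div_le_one₀ (val_pos hy'), ← map_div₀, ← map_div₀,
      val_le_one_iff, val_le_one_iff, ← map_div₀]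
    rfl

lemma dn_lt_iff (O : ValuationSubring F) (x y : K) : (dn K O).valuation x < (dn K O).valuation y ↔
    O.valuation (algebraMap K F x) < O.valuation (algebraMap K F y) := by
  rw [← not_le, ← not_le, dn_le_iff]

lemma dn_lt_one_iff (O : ValuationSubring F) (x : K) : (dn K O).valuation x < 1 ↔
    O.valuation (algebraMap K F x) < 1 := by
  have := dn_lt_iff O x 1
  rwa [map_one, map_one, map_one] at this

lemma dn_eq_iff (O : ValuationSubring F) (x y : K) : (dn K O).valuation x = (dn K O).valuation y ↔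
    O.valuation (algebraMap K F x) = O.valuation (algebraMap K F y) := by
  rw [le_antisymm_iff, le_antisymm_iff, dn_le_iff, dn_le_iff]

omit [IsScalarTower k K F] in
lemma dn_place [FiniteDimensional K F] (hk : ∀ a : k, algebraMap K F (algebraMap k K a) =
    algebraMap k F a) {O : ValuationSubring F} (hO : IsPlace k O) : IsPlace k (dn K O) := by
  refine ⟨fun a => ?_, fun h => hO.2 ?_⟩
  · change algebraMap K F (algebraMap k K a) ∈ O
    rw [hk]
    exact hO.1 a
  · rw [eq_top_iff]
    intro x _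
    refine mem_of_isIntegral (R := K) O (fun r => ?_) (Algebra.IsIntegral.isIntegral x)
    have : r ∈ dn K O := by rw [h]; exact ValuationSubring.mem_top _
    exact this

lemma unif_dn {O : ValuationSubring F} {z : K} (h : Unif O (algebraMap K F z)) :
    Unif (dn K O) z := by
  intro y
  rw [dn_lt_one_iff, dn_le_iff]
  exact h _

end comap

section core

variable {k K F : Type} [Field k] [CharZero k] [Field K] [Field F] [Algebra k K] [Algebra K F]
  [Algebra k F] [IsScalarTower k K F] [FiniteDimensional K F]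

/-- The canonical divisor. -/
theorem core_can (hK : CF k K) {𝒟 : Set (ValuationSubring K)} {t : F} (hc : Cover k 𝒟 t)
    {D : Derivation k K K} {D' : Derivation k F F}
    (hD' : ∀ x : K, D' (algebraMap K F x) = algebraMap K F (D x)) {n₁ n₂ : ℕ} {p : Fin n₁ → K}
    {q : Fin n₂ → K} (hcan : RepCan k D p q) {O : ValuationSubring F} (hO : IsPlace k O) :
    ∃ z : K, Unif (dn K O) z ∧ (t ∈ O → t⁻¹ ∈ O → Unif O (algebraMap K F z)) ∧
      ∃ j, q j ≠ 0 ∧ ∀ i, O.valuation (algebraMap K F (p i)) *
        O.valuation (D' (algebraMap K F z)) ≤ O.valuation (algebraMap K F (q j)) := by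
  have hP : IsPlace k (dn K O) :=
    dn_place (fun a => (IsScalarTower.algebraMap_apply k K F a).symm) hO
  obtain ⟨z, hz, hz'⟩ : ∃ z : K, Unif (dn K O) z ∧
      (t ∈ O → t⁻¹ ∈ O → Unif O (algebraMap K F z)) := by
    by_cases h : t ∈ O ∧ t⁻¹ ∈ O
    · obtain ⟨z, hz⟩ := (hc.2 O hO).2 h.1 h.2
      exact ⟨z, unif_dn hz, fun _ _ => hz⟩
    · obtain ⟨π, -, hπ, -⟩ := exists_unif hK hP
      exact ⟨π, hπ, fun h1 h2 => absurd ⟨h1, h2⟩ h⟩
  refine ⟨z, hz, hz', ?_⟩
  obtain ⟨i, j, hi, hj, hij⟩ := hcan _ hP z hz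
  refine ⟨j, hj.1, fun i' => ?_⟩
  have h1 := hij
  rw [dn_eq_iff, map_mul, map_mul, ← hD'] at h1
  rw [← h1]
  exact mul_le_mul_left ((dn_le_iff O _ _).mp (hi.2 i')) _

omit [CharZero k] in
/-- The divisor `D`. -/
theorem core_div {𝒟 : Set (ValuationSubring K)} {n₃ n₄ : ℕ} {p' : Fin n₃ → K}
    {q' : Fin n₄ → K} (hdiv : RepDiv k 𝒟 p' q') {O : ValuationSubring F} (hO : IsPlace k O)
    {z : K} (hz : Unif (dn K O) z) :
    ∃ j, q' j ≠ 0 ∧ (∀ i, O.valuation (algebraMap K F (p' i)) ≤
        O.valuation (algebraMap K F (q' j))) ∧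
      (dn K O ∈ 𝒟 → ∀ i, O.valuation (algebraMap K F (p' i)) ≤
        O.valuation (algebraMap K F z) * O.valuation (algebraMap K F (q' j))) := by
  have hP : IsPlace k (dn K O) :=
    dn_place (fun a => (IsScalarTower.algebraMap_apply k K F a).symm) hO
  obtain ⟨h1, h2⟩ := hdiv _ hP
  have hz1 : O.valuation (algebraMap K F z) ≤ 1 :=
    ((dn_lt_one_iff O z).mp (unif_lt_one hz)).le
  by_cases hD : dn K O ∈ 𝒟
  · obtain ⟨i, j, hi, hj, hij⟩ := h1 hD z hz
    rw [dn_eq_iff, map_mul, map_mul] at hij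
    have h3 : ∀ i', O.valuation (algebraMap K F (p' i')) ≤
        O.valuation (algebraMap K F z) * O.valuation (algebraMap K F (q' j)) := by
      intro i'
      rw [← hij]
      exact (dn_le_iff O _ _).mp (hi.2 i')
    exact ⟨j, hj.1, fun i' => (h3 i').trans (mul_le_of_le_one_left' hz1), fun _ => h3⟩
  · obtain ⟨i, j, hi, hj, hij⟩ := h2 hD
    rw [dn_eq_iff] at hij
    refine ⟨j, hj.1, fun i' => ?_, fun h => absurd h hD⟩
    rw [← hij]
    exact (dn_le_iff O _ _).mp (hi.2 i')

/-- The inequality of orders at the places where `t` is a unit. -/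
theorem val_unit (hF : CF k F) {t : F} {D' : Derivation k F F} {O : ValuationSubring F}
    (hO : IsPlace k O) (ht : t ∈ O) (ht' : t⁻¹ ∈ O) {π : F} (hπ : Unif O π) :
    O.valuation (D' t / t) ≤ O.valuation (D' π) := by
  rw [div_eq_mul_inv, map_mul]
  calc O.valuation (D' t) * O.valuation t⁻¹ ≤ O.valuation (D' t) * 1 :=
        mul_le_mul_right (val_le_one_iff.mpr ht') _
    _ = O.valuation (D' t) := mul_one _
    _ ≤ _ := der_le hF hO D' hπ ht

/-- The order of `D z` for a uniformiser `z` of the place below, at zeros and poles of `t`. -/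
theorem val_nonunit (hF : CF k F) {t : F} (ht0 : t ≠ 0) {D' : Derivation k F F} (hD' : D' ≠ 0)
    {O : ValuationSubring F} (hO : IsPlace k O) (ht : ¬ (t ∈ O ∧ t⁻¹ ∈ O)) {z : F}
    (hz0 : z ≠ 0) (hz : O.valuation z < 1) :
    O.valuation (D' t / t) * O.valuation z = O.valuation (D' z) := by
  obtain ⟨π, hπ0, hπ, -⟩ := exists_unif hF hO
  have ht1 : O.valuation t ≠ 1 := by
    intro h1
    exact ht ⟨val_le_one_iff.mp h1.le, val_le_one_iff.mp (val_inv_one h1).le⟩
  have h1 := der_dlog hF hO hD' hπ ht0 ht1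
  have h2 := der_dlog hF hO hD' hπ hz0 hz.ne
  have hπp : O.valuation π ≠ 0 := (val_pos hπ0).ne'
  have htp : O.valuation t ≠ 0 := (val_pos ht0).ne'
  have h3 : O.valuation (D' t / t) = O.valuation (D' π) / O.valuation π := by
    rw [map_div₀, div_eq_div_iff htp hπp, h1, mul_comm]
  rw [h3, div_mul_eq_mul_div, div_eq_iff hπp, h2, mul_comm]

/-- **(O1)** at all places. -/
theorem val_main (hK : CF k K) {𝒟 : Set (ValuationSubring K)} {t : F} (hc : Cover k 𝒟 t)
    {D : Derivation k K K} {D' : Derivation k F F} (hDne : D' ≠ 0)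
    (hD' : ∀ x : K, D' (algebraMap K F x) = algebraMap K F (D x)) {n₁ n₂ n₃ n₄ : ℕ}
    {p : Fin n₁ → K} {q : Fin n₂ → K} {p' : Fin n₃ → K} {q' : Fin n₄ → K}
    (hcan : RepCan k D p q) (hdiv : RepDiv k 𝒟 p' q') {O : ValuationSubring F}
    (hO : IsPlace k O) : ∃ j j', q j ≠ 0 ∧ q' j' ≠ 0 ∧ ∀ i i',
      O.valuation (D' t / t * algebraMap K F (p i) * algebraMap K F (p' i')) ≤
        O.valuation (algebraMap K F (q j) * algebraMap K F (q' j')) := by
  have hF : CF k F := hK.ext
  obtain ⟨z, hz, hz', j, hj, hcj⟩ := core_can hK hc hD' hcan hO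
  obtain ⟨j', hj', hd1, hd2⟩ := core_div hdiv hO hz
  refine ⟨j, j', hj, hj', fun i i' => ?_⟩
  rw [map_mul, map_mul, map_mul]
  have ht0 : t ≠ 0 := by
    rintro rfl
    exact hc.1 isAlgebraic_zero
  have hP : IsPlace k (dn K O) :=
    dn_place (fun a => (IsScalarTower.algebraMap_apply k K F a).symm) hO
  by_cases ht : t ∈ O ∧ t⁻¹ ∈ O
  · calc O.valuation (D' t / t) * O.valuation (algebraMap K F (p i)) *
          O.valuation (algebraMap K F (p' i'))
        ≤ O.valuation (D' (algebraMap K F z)) * O.valuation (algebraMap K F (p i)) *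
          O.valuation (algebraMap K F (q' j')) :=
          mul_le_mul' (mul_le_mul' (val_unit hF hO ht.1 ht.2 (hz' ht.1 ht.2)) le_rfl) (hd1 i')
      _ ≤ _ := by
          rw [mul_comm (O.valuation (D' (algebraMap K F z)))]
          exact mul_le_mul' (hcj i) le_rfl
  · have hDm : dn K O ∈ 𝒟 := by
      refine (hc.2 O hO).1 ?_
      by_contra h
      push Not at h
      exact ht h
    have hz0 : algebraMap K F z ≠ 0 := by
      have := unif_ne_zero hP.2 hz
      simpa using this
    have h1 := val_nonunit hF ht0 hDne hO ht hz0 ((dn_lt_one_iff O z).mp (unif_lt_one hz))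
    calc O.valuation (D' t / t) * O.valuation (algebraMap K F (p i)) *
          O.valuation (algebraMap K F (p' i'))
        ≤ O.valuation (D' t / t) * O.valuation (algebraMap K F (p i)) *
          (O.valuation (algebraMap K F z) * O.valuation (algebraMap K F (q' j'))) :=
          mul_le_mul' le_rfl (hd2 hDm i')
      _ = O.valuation (algebraMap K F (p i)) * O.valuation (D' (algebraMap K F z)) *
          O.valuation (algebraMap K F (q' j')) := by
          rw [← h1]
          ac_rfl
      _ ≤ _ := mul_le_mul' (hcj i) le_rfl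

end core

end Pool.Agent.KS6_77.VJ
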