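import Pool.Agent.KS6_77.VJ.Model
import Pool.Agent.KS6_16.VJ.Defs

/-!
# Derivations and places
-/

namespace Pool.Agent.KS6_77.VJ

open IsDedekindDomain KS6_16.VJ

section gen

variable {F : Type*} [Field F]

theorem mem_of_isIntegral {R : Type*} [CommRing R] [Algebra R F] (O : ValuationSubring F)
    (h : ∀ r : R, algebraMap R F r ∈ O) {x : F} (hx : IsIntegral R x) : x ∈ O := by
  obtain ⟨p, hp, hp0⟩ := hx
  let ι : R →+* O := (algebraMap R F).codRestrict O.toSubring h
  have h1 : IsIntegral O x := by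
    refine ⟨p.map ι, hp.map ι, ?_⟩
    rw [Polynomial.eval₂_map]
    exact hp0
  obtain ⟨y, hy⟩ := IsIntegrallyClosed.isIntegral_iff.mp h1
  rw [← hy]
  exact y.2

lemma val_pos {O : ValuationSubring F} {x : F} (hx : x ≠ 0) : 0 < O.valuation x := by
  rw [Valuation.pos_iff]
  exact hx

lemma val_inv_one {O : ValuationSubring F} {x : F} (hx : O.valuation x = 1) :
    O.valuation x⁻¹ = 1 := by
  rw [map_inv₀, hx, inv_one]

end gen

section fn

variable {k F : Type} [Field k] [Field F] [Algebra k F]

lemma adjoin_mem {O : ValuationSubring F} (hk : ∀ a : k, algebraMap k F a ∈ O) {S : Set F}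
    (hS : ∀ x ∈ S, x ∈ O) {y : F} (hy : y ∈ Algebra.adjoin k S) : y ∈ O := by
  induction hy using Algebra.adjoin_induction with
  | mem x hx => exact hS x hx
  | algebraMap a => exact hk a
  | add x y _ _ hx hy => exact O.add_mem _ _ hx hy
  | mul x y _ _ hx hy => exact O.mul_mem _ _ hx hy

lemma integral_mem {O : ValuationSubring F} (hk : ∀ a : k, algebraMap k F a ∈ O) {S : Set F}
    (hS : ∀ x ∈ S, x ∈ O) {y : F} (hy : IsIntegral (Algebra.adjoin k S) y) : y ∈ O :=
  mem_of_isIntegral O (fun r => adjoin_mem hk hS r.2) hy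

lemma const_val {O : ValuationSubring F} (hk : ∀ a : k, algebraMap k F a ∈ O) {a : k}
    (ha : a ≠ 0) : O.valuation (algebraMap k F a) = 1 := by
  refine le_antisymm (val_le_one_iff.mpr (hk a)) ?_
  have h1 := val_le_one_iff.mpr (hk a⁻¹)
  rw [map_inv₀, map_inv₀] at h1
  exact (inv_le_one₀ (val_pos (by simpa using ha))).mp h1

lemma poly_mem {O : ValuationSubring F} (hk : ∀ a : k, algebraMap k F a ∈ O) {y : F}
    (hy : y ∈ O) (p : Polynomial k) : Polynomial.aeval y p ∈ O := by
  refine adjoin_mem hk (S := {y}) (by rintro x rfl; exact hy) ?_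
  rw [Algebra.adjoin_singleton_eq_range_aeval]
  exact ⟨p, rfl⟩

theorem exists_transc {O : ValuationSubring F} (hO : IsPlace k O) :
    ∃ s : F, Transcendental k s ∧ O.valuation s < 1 ∧ s ≠ 0 := by
  have h1 : ∃ x : F, x ∉ O := by
    by_contra h
    push Not at h
    exact hO.2 (by rw [eq_top_iff]; intro x _; exact h x)
  obtain ⟨x, hx⟩ := h1
  have hx0 : x ≠ 0 := by rintro rfl; exact hx O.zero_mem
  have hx1 : 1 < O.valuation x := by
    rw [← not_le, val_le_one_iff]
    exact hx
  refine ⟨x⁻¹, ?_, ?_, inv_ne_zero hx0⟩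
  · intro halg
    have h2 : IsAlgebraic k x := by
      have := halg.inv
      rwa [inv_inv] at this
    exact hx (mem_of_isIntegral O hO.1 h2.isIntegral)
  · rw [map_inv₀]
    exact (inv_lt_one₀ (val_pos hx0)).mpr hx1

variable [CharZero k]

/-- The minimal polynomial of the residue class. -/
theorem exists_min (h : CF k F) {O : ValuationSubring F} (hO : IsPlace k O) {y : F}
    (hy : y ∈ O) : ∃ p : Polynomial k, p ≠ 0 ∧ O.valuation (Polynomial.aeval y p) < 1 ∧
      O.valuation (Polynomial.aeval y (Polynomial.derivative p)) = 1 ∧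
      ∀ q : Polynomial k, O.valuation (Polynomial.aeval y q) < 1 → p ∣ q := by
  classical
  have hex : ∃ p : Polynomial k, p ≠ 0 ∧ O.valuation (Polynomial.aeval y p) < 1 := by
    by_contra hcon
    push Not at hcon
    have h1 : ∀ p : Polynomial k, p ≠ 0 → O.valuation (Polynomial.aeval y p) = 1 := fun p hp =>
      le_antisymm (val_le_one_iff.mpr (poly_mem hO.1 hy p)) (hcon p hp)
    have hyt : Transcendental k y := by
      rintro ⟨p, hp, hp0⟩
      have := h1 p hp
      rw [hp0, map_zero] at this
      exact zero_ne_one this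
    apply hO.2
    rw [eq_top_iff]
    intro x _
    have h2 := h.alg y hyt
    refine mem_of_isIntegral (R := IntermediateField.adjoin k {y}) O ?_
      (h2.isAlgebraic x).isIntegral
    rintro ⟨z, hz⟩
    change z ∈ O
    rw [IntermediateField.mem_adjoin_simple_iff] at hz
    obtain ⟨r, s, rfl⟩ := hz
    by_cases hs : s = 0
    · rw [hs, map_zero, div_zero]
      exact O.zero_mem
    · rw [← val_le_one_iff, map_div₀, h1 s hs, div_one]
      exact val_le_one_iff.mpr (poly_mem hO.1 hy r)
  have hwf : WellFounded (fun p q : Polynomial k => p.natDegree < q.natDegree) :=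
    InvImage.wf Polynomial.natDegree Nat.lt_wfRel.wf
  let T : Set (Polynomial k) := {p | p ≠ 0 ∧ O.valuation (Polynomial.aeval y p) < 1}
  have hT : T.Nonempty := hex
  let p := hwf.min T hT
  have hp : p ∈ T := hwf.min_mem T hT
  have hmin : ∀ q, q.natDegree < p.natDegree → q ≠ 0 →
      ¬ O.valuation (Polynomial.aeval y q) < 1 := fun q hq hq0 hq1 =>
    hwf.not_lt_min T (x := q) ⟨hq0, hq1⟩ hq
  have hdeg : p.natDegree ≠ 0 := by
    intro h0
    rw [Polynomial.natDegree_eq_zero] at h0
    obtain ⟨c, hc⟩ := h0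
    have hc0 : c ≠ 0 := by
      rintro rfl
      exact hp.1 (by rw [← hc, map_zero])
    have h1 := hp.2
    rw [← hc, Polynomial.aeval_C, const_val hO.1 hc0] at h1
    exact lt_irrefl _ h1
  refine ⟨p, hp.1, hp.2, ?_, ?_⟩
  · refine le_antisymm (val_le_one_iff.mpr (poly_mem hO.1 hy _)) (not_lt.mp ?_)
    refine hmin _ (Polynomial.natDegree_derivative_lt hdeg) ?_
    intro h0
    exact hdeg (Polynomial.derivative_eq_zero.mp h0)
  · intro q hq
    rw [← EuclideanDomain.mod_eq_zero]
    by_contra hr
    have h1 : (q % p).natDegree < p.natDegree := Polynomial.natDegree_mod_lt q hdeg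
    refine hmin _ h1 hr ?_
    have h2 : q % p = q - p * (q / p) := by
      have := EuclideanDomain.div_add_mod q p
      linear_combination this
    rw [h2, map_sub, map_mul]
    refine Valuation.map_sub_lt _ hq ?_
    rw [map_mul]
    exact mul_lt_one_of_lt_of_le hp.2 (val_le_one_iff.mpr (poly_mem hO.1 hy _))

/-- Places are discrete. -/
theorem exists_unif (h : CF k F) {O : ValuationSubring F} (hO : IsPlace k O) :
    ∃ π : F, π ≠ 0 ∧ Unif O π ∧ ∀ z : F, z ≠ 0 → ∃ (m : ℤ) (u : F),
      O.valuation u = 1 ∧ z = u * π ^ m := by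
  obtain ⟨s, hs, hs1, hs0⟩ := exists_transc hO
  have := model_dedekind h s hs
  have := model_frac h s hs
  have hsO : s ∈ O := val_le_one_iff.mp hs1.le
  obtain ⟨v, hv, -⟩ := exists_center (A := integralClosure (Algebra.adjoin k {s}) F) O
    (fun a => integral_mem hO.1 (S := {s}) (by rintro x rfl; exact hsO)
      (show IsIntegral (Algebra.adjoin k {s}) (a : F) from a.2)) hO.2
  obtain ⟨π, hπ⟩ := v.valuation_exists_uniformizer F
  have heq : (v.valuation F).IsEquiv O.valuation := by
    rw [hv]
    exact Valuation.isEquiv_valuation_valuationSubring _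
  have hπ0 : π ≠ 0 := by
    rintro rfl
    rw [map_zero] at hπ
    exact absurd hπ.symm (by simp)
  refine ⟨π, hπ0, ?_, ?_⟩
  · intro y
    rw [← heq.lt_one_iff_lt_one, ← heq y π, hπ]
    constructor
    · intro hy
      by_cases hy0 : y = 0
      · rw [hy0, map_zero]; exact zero_le
      · obtain ⟨n, hn⟩ : ∃ n : ℤ, v.valuation F y = WithZero.exp n := by
          have : v.valuation F y ≠ 0 := (Valuation.ne_zero_iff _).mpr hy0
          exact ⟨WithZero.log (v.valuation F y), (WithZero.exp_log this).symm⟩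
        rw [hn] at hy ⊢
        rw [← WithZero.exp_zero, WithZero.exp_lt_exp] at hy
        rw [WithZero.exp_le_exp]
        omega
    · intro hy
      refine lt_of_le_of_lt hy ?_
      rw [← WithZero.exp_zero, WithZero.exp_lt_exp]
      norm_num
  · intro z hz
    have hvz : v.valuation F z ≠ 0 := (Valuation.ne_zero_iff _).mpr hz
    refine ⟨- WithZero.log (v.valuation F z), z * π ^ (WithZero.log (v.valuation F z)), ?_, ?_⟩
    · rw [← heq.eq_one_iff_eq_one, map_mul, map_zpow₀, hπ, ← WithZero.exp_zsmul]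
      conv_lhs => enter [1]; rw [← WithZero.exp_log hvz]
      rw [← WithZero.exp_add, ← WithZero.exp_zero]
      congr 1
      simp
    · rw [mul_assoc, ← zpow_add₀ hπ0]
      simp

end fn

end Pool.Agent.KS6_77.VJ
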