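import Pool.Agent.KS6_77.VJ.Bound
import Pool.Agent.KS6_77.VJ.Loc
import Pool.Agent.KS6_16.VJ.Defs2
import Pool.Agent.KS6_8.VJ.Cst

/-!
# Comparison of functions at all points
-/

namespace Pool.Agent.KS6_77.VJ

open KS6_16.VJ

section ev

variable {F L : Type} [Field F] [Field L] {O : ValuationSubring F} (Φ : O →+* L)

lemma ev_of_mem {x : F} (hx : x ∈ O) : ev Φ x = Φ ⟨x, hx⟩ := by
  unfold ev
  exact dif_pos hx

lemma ev_mul {x y : F} (hx : x ∈ O) (hy : y ∈ O) : ev Φ (x * y) = ev Φ x * ev Φ y := by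
  rw [ev_of_mem Φ hx, ev_of_mem Φ hy, ev_of_mem Φ (O.mul_mem _ _ hx hy), ← map_mul]
  rfl

/-- The embedding of the constants. -/
noncomputable def evk {k : Type} [Field k] [Algebra k F] (hk : ∀ a : k, algebraMap k F a ∈ O) :
    k →+* L := Φ.comp ((algebraMap k F).codRestrict O.toSubring hk)

lemma evk_apply {k : Type} [Field k] [Algebra k F] (hk : ∀ a : k, algebraMap k F a ∈ O) (a : k) :
    evk Φ hk a = ev Φ (algebraMap k F a) := by
  rw [ev_of_mem Φ (hk a)]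
  rfl

end ev

theorem exists_bound_place {k F : Type} [Field k] [Field F] [Algebra k F] {ι κ α : Type}
    [Finite α] (u : κ → F) (g : ι → F) (f : α → F)
    (H : ∀ a, ∀ W : ValuationSubring F, (∀ c : k, algebraMap k F c ∈ W) → (∀ j, u j ∈ W) →
      f a ≠ 0 → ∃ j, g j ≠ 0 ∧ f a / g j ∈ W) :
    ∃ (T : Finset k) (N : ℕ), 0 < N ∧ ∀ (L : Type) [Field L] (O : ValuationSubring F)
      (Φ : O →+* L) (hk : ∀ c : k, algebraMap k F c ∈ O), (∀ j, u j ∈ O) → (∀ j, g j ∈ O) →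
      (∀ a, f a ∈ O) → ∀ w : AbsoluteValue L ℝ, (∀ j, w (ev Φ (u j)) ≤ 1) →
      ∀ G M : ℝ, 0 ≤ G → (∀ j, w (ev Φ (g j)) ≤ G) → 1 ≤ M → (∀ c ∈ T, w (evk Φ hk c) ≤ M) →
      ∀ a, w (ev Φ (f a)) ≤ N * M * G ∧ (IsNonarchimedean w → w (ev Φ (f a)) ≤ M * G) := by
  classical
  have := Fintype.ofFinite α
  let Γ : Set F := Set.range u ∪ Set.range g ∪ Set.range f
  let B := Algebra.adjoin k Γ
  have hu : ∀ j, u j ∈ B := fun j => Algebra.subset_adjoin (Or.inl (Or.inl ⟨j, rfl⟩))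
  have hg : ∀ j, g j ∈ B := fun j => Algebra.subset_adjoin (Or.inl (Or.inr ⟨j, rfl⟩))
  have hf : ∀ a, f a ∈ B := fun a => Algebra.subset_adjoin (Or.inr ⟨a, rfl⟩)
  have key := fun a => exists_bound.{0} (k := k) (B := B) (F := F) Subtype.val_injective
    (fun j => ⟨u j, hu j⟩) (fun j => ⟨g j, hg j⟩) (⟨f a, hf a⟩ : B) (by
      intro W hW1 hW2 hne
      obtain ⟨j, hj, hjW⟩ := H a W hW1 hW2 (fun h => hne (Subtype.ext h))
      exact ⟨j, fun h => hj (congrArg Subtype.val h), hjW⟩)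
  choose T N hN hb using key
  refine ⟨Finset.univ.biUnion T, 1 + ∑ a, N a, by omega, ?_⟩
  intro L _ O Φ hk huO hgO hfO w hw1 G M hG hgG hM hT a
  have hBO : ∀ b : B, (b : F) ∈ O := by
    intro b
    refine adjoin_mem hk (S := Γ) ?_ b.2
    rintro x ((⟨j, rfl⟩ | ⟨j, rfl⟩) | ⟨j, rfl⟩)
    · exact huO j
    · exact hgO j
    · exact hfO j
  let _ : Algebra k L := (evk Φ hk).toAlgebra
  let φ₀ : B →+* L := Φ.comp (B.val.toRingHom.codRestrict O.toSubring hBO)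
  let φ : B →ₐ[k] L := { φ₀ with commutes' := fun c => rfl }
  have hφ : ∀ b : B, φ b = ev Φ (b : F) := by
    intro b
    rw [ev_of_mem Φ (hBO b)]
    rfl
  obtain ⟨h1, h2⟩ := hb a L φ w (fun j => by rw [hφ]; exact hw1 j) G M hG
    (fun j => by rw [hφ]; exact hgG j) hM
    (fun c hc => hT c (Finset.mem_biUnion.mpr ⟨a, Finset.mem_univ a, hc⟩))
  rw [hφ] at h1 h2
  refine ⟨h1.trans ?_, h2⟩
  have h3 : N a ≤ 1 + ∑ a, N a := by
    have := Finset.single_le_sum (f := N) (fun j _ => Nat.zero_le _) (Finset.mem_univ a)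
    omega
  have h4 : (N a : ℝ) ≤ ((1 + ∑ a, N a : ℕ) : ℝ) := by exact_mod_cast h3
  have : 0 ≤ M := by linarith
  gcongr

end Pool.Agent.KS6_77.VJ
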