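import Pool.Agent.KS6_77.VJ.IntDep

/-!
# Comparison of functions at all absolute values
-/

namespace Pool.Agent.KS6_77.VJ

open MvPolynomial

universe v

section bdd

variable {k B : Type*} [Field k] [CommRing B] [Algebra k B] {ι κ : Type*}

/-- `x` is bounded by the `i`-th power of a bound for the `g j` at all points and all absolute
values, where the `u j` are bounded by `1`. -/
def Bdd (u : κ → B) (g : ι → B) (i : ℕ) (x : B) : Prop :=
  ∃ (T : Finset k) (N : ℕ), ∀ (L : Type v) [Field L] [Algebra k L] (φ : B →ₐ[k] L)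
    (w : AbsoluteValue L ℝ), (∀ j, w (φ (u j)) ≤ 1) → ∀ G M : ℝ, 0 ≤ G →
      (∀ j, w (φ (g j)) ≤ G) → 1 ≤ M → (∀ c ∈ T, w (algebraMap k L c) ≤ M) →
      w (φ x) ≤ N * M * G ^ i ∧ (IsNonarchimedean w → w (φ x) ≤ M * G ^ i)

theorem Bdd.zero (u : κ → B) (g : ι → B) (i : ℕ) : Bdd.{v} (k := k) u g i 0 := by
  refine ⟨∅, 0, ?_⟩
  intro L _ _ φ w _ G M hG _ hM _
  rw [map_zero, map_zero]
  have : 0 ≤ M := by linarith
  exact ⟨by positivity, fun _ => by positivity⟩

theorem Bdd.add {u : κ → B} {g : ι → B} {i : ℕ} {x y : B} (hx : Bdd.{v} (k := k) u g i x)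
    (hy : Bdd.{v} (k := k) u g i y) : Bdd.{v} (k := k) u g i (x + y) := by
  classical
  obtain ⟨T, N, h⟩ := hx
  obtain ⟨T', N', h'⟩ := hy
  refine ⟨T ∪ T', N + N', ?_⟩
  intro L _ _ φ w hu G M hG hg hM hT
  obtain ⟨h1, h2⟩ := h L φ w hu G M hG hg hM fun c hc => hT c (Finset.mem_union_left _ hc)
  obtain ⟨h3, h4⟩ := h' L φ w hu G M hG hg hM fun c hc => hT c (Finset.mem_union_right _ hc)
  rw [map_add]
  refine ⟨(w.add_le _ _).trans ?_, fun hw => (hw _ _).trans (max_le (h2 hw) (h4 hw))⟩
  push_cast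
  nlinarith

theorem Bdd.mono_mem {u : κ → B} {g : ι → B} (c : k) (r : κ →₀ ℕ) (s : ι →₀ ℕ) :
    Bdd.{v} (k := k) u g s.degree
      (algebraMap k B c * (r.prod fun j e => u j ^ e) * (s.prod fun j e => g j ^ e)) := by
  classical
  refine ⟨{c}, 1, ?_⟩
  intro L _ _ φ w hu G M hG hg hM hT
  have h1 : w (φ (r.prod fun j e => u j ^ e)) ≤ 1 := by
    rw [Finsupp.prod, map_prod, map_prod]
    refine Finset.prod_le_one (fun j _ => w.nonneg _) fun j _ => ?_
    rw [map_pow, map_pow]
    exact pow_le_one₀ (w.nonneg _) (hu j)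
  have h2 : w (φ (s.prod fun j e => g j ^ e)) ≤ G ^ s.degree := by
    rw [Finsupp.prod, map_prod, map_prod, Finsupp.degree_apply, ← Finset.prod_pow_eq_pow_sum]
    refine Finset.prod_le_prod (fun j _ => w.nonneg _) fun j _ => ?_
    rw [map_pow, map_pow]
    exact pow_le_pow_left₀ (w.nonneg _) (hg j) _
  have h3 : w (φ (algebraMap k B c)) ≤ M := by
    rw [AlgHom.commutes]
    exact hT c (Finset.mem_singleton_self c)
  have h4 : w (φ (algebraMap k B c * (r.prod fun j e => u j ^ e) *
      (s.prod fun j e => g j ^ e))) ≤ M * G ^ s.degree := by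
    rw [map_mul, map_mul, map_mul, map_mul]
    calc w (φ (algebraMap k B c)) * w (φ (r.prod fun j e => u j ^ e)) *
        w (φ (s.prod fun j e => g j ^ e)) ≤ M * 1 * G ^ s.degree := by
          gcongr
          all_goals first | exact w.nonneg _ | skip
      _ = _ := by ring
  refine ⟨?_, fun _ => h4⟩
  rw [Nat.cast_one, one_mul]
  exact h4

theorem Bdd.sum {u : κ → B} {g : ι → B} {i : ℕ} {α : Type*} (s : Finset α) (x : α → B)
    (h : ∀ a ∈ s, Bdd.{v} (k := k) u g i (x a)) : Bdd.{v} (k := k) u g i (∑ a ∈ s, x a) := by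
  classical
  induction s using Finset.induction_on with
  | empty => rw [Finset.sum_empty]; exact Bdd.zero u g i
  | insert a s ha ih =>
    rw [Finset.sum_insert ha]
    exact (h a (Finset.mem_insert_self a s)).add
      (ih fun b hb => h b (Finset.mem_insert_of_mem hb))

/-- Values of forms of degree `i` in the `g j` with coefficients polynomials in the `u j`. -/
theorem Bdd.form (u : κ → B) (g : ι → B) (i : ℕ) (a : MvPolynomial ι (MvPolynomial κ k))
    (ha : a.IsHomogeneous i) :
    Bdd.{v} (k := k) u g i (eval₂ (aeval u : MvPolynomial κ k →ₐ[k] B).toRingHom g a) := by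
  classical
  rw [eval₂_eq]
  refine Bdd.sum _ _ fun s hs => ?_
  have hsi : s.degree = i := by
    by_contra h
    exact (mem_support_iff.mp hs) (ha.coeff_eq_zero h)
  have h1 : (aeval u : MvPolynomial κ k →ₐ[k] B).toRingHom (coeff s a) =
      ∑ r ∈ (coeff s a).support, algebraMap k B (coeff r (coeff s a)) *
        (r.prod fun j e => u j ^ e) := by
    change aeval u (coeff s a) = _
    rw [aeval_eq_eval₂Hom]
    change eval₂ _ _ _ = _
    rw [eval₂_eq]
    rfl
  rw [h1, Finset.sum_mul]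
  refine Bdd.sum _ _ fun r _ => ?_
  rw [← hsi]
  exact Bdd.mono_mem _ _ _

end bdd

/-- The elementary inequality, archimedean case. -/
theorem le_of_pow_le_sum {n : ℕ} {y N M G : ℝ} (hy : 0 ≤ y) (hN : 1 ≤ N) (hM : 1 ≤ M)
    (hG : 0 ≤ G) (h : y ^ n ≤ ∑ i ∈ Finset.range n, N * M * G ^ (i + 1) * y ^ (n - (i + 1)))
    (hn : 0 < n) : y ≤ n * N * M * G := by
  by_contra hlt
  push Not at hlt
  have hy0 : 0 < y := lt_of_le_of_lt (by positivity) hlt
  have hn1 : (1 : ℝ) ≤ n := by exact_mod_cast hn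
  have h1 : ∀ i ∈ Finset.range n, N * M * G ^ (i + 1) * y ^ (n - (i + 1)) < y ^ n / n := by
    intro i hi
    have hi' : i + 1 ≤ n := by simpa [Nat.succ_le_iff] using hi
    have h2 : (n * N * M * G) ^ (i + 1) < y ^ (i + 1) :=
      pow_lt_pow_left₀ hlt (by positivity) (by omega)
    have h3 : n * (N * M * G ^ (i + 1)) ≤ (n * N * M * G) ^ (i + 1) := by
      rw [mul_pow, ← mul_assoc]
      refine mul_le_mul_of_nonneg_right ?_ (by positivity)
      have h4 : (1 : ℝ) ≤ n * N * M := by
        calc (1 : ℝ) = 1 * 1 * 1 := by ring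
          _ ≤ n * N * M := by gcongr
      calc n * (N * M) = (n * N * M) ^ 1 := by ring
        _ ≤ (n * N * M) ^ (i + 1) := pow_le_pow_right₀ h4 (by omega)
    rw [lt_div_iff₀ (by positivity)]
    calc N * M * G ^ (i + 1) * y ^ (n - (i + 1)) * n
        = (n * (N * M * G ^ (i + 1))) * y ^ (n - (i + 1)) := by ring
      _ < y ^ (i + 1) * y ^ (n - (i + 1)) :=
          mul_lt_mul_of_pos_right (lt_of_le_of_lt h3 h2) (by positivity)
      _ = y ^ n := by rw [← pow_add, Nat.add_sub_cancel' hi']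
  have h5 : ∑ i ∈ Finset.range n, N * M * G ^ (i + 1) * y ^ (n - (i + 1)) <
      ∑ _i ∈ Finset.range n, y ^ n / n :=
    Finset.sum_lt_sum_of_nonempty ⟨0, Finset.mem_range.mpr hn⟩ h1
  rw [Finset.sum_const, Finset.card_range, nsmul_eq_mul, mul_div_cancel₀ _ (by positivity)] at h5
  linarith

/-- The elementary inequality, non-archimedean case. -/
theorem le_of_pow_le_term {n i : ℕ} {y M G : ℝ} (hy : 0 ≤ y) (hM : 1 ≤ M)
    (hG : 0 ≤ G) (hi : i + 1 ≤ n) (h : y ^ n ≤ M * G ^ (i + 1) * y ^ (n - (i + 1))) :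
    y ≤ M * G := by
  rcases hy.eq_or_lt with h0 | h0
  · rw [← h0]; positivity
  have h1 : y ^ (i + 1) ≤ M * G ^ (i + 1) := by
    have h2 : y ^ (i + 1) * y ^ (n - (i + 1)) ≤ M * G ^ (i + 1) * y ^ (n - (i + 1)) := by
      rw [← pow_add, Nat.add_sub_cancel' hi]
      exact h
    exact le_of_mul_le_mul_right h2 (by positivity)
  have h3 : y ^ (i + 1) ≤ (M * G) ^ (i + 1) := by
    refine h1.trans ?_
    rw [mul_pow]
    refine mul_le_mul_of_nonneg_right ?_ (by positivity)
    calc M = M ^ 1 := by ring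
      _ ≤ M ^ (i + 1) := pow_le_pow_right₀ hM (by omega)
  exact le_of_pow_le_pow_left₀ (by omega) (by positivity) h3

/-- **Comparison of functions.** If `f` lies in the module generated by the `g j` at all valuation
rings which contain the `u j`, then `|f| ≤ c max |g j|` at all points and all absolute values with
`|u j| ≤ 1`, with a constant which is an absolute bound for finitely many constants. -/
theorem exists_bound {k B F : Type*} [Field k] [CommRing B] [Field F] [Algebra k B]
    [Algebra B F] (hinj : Function.Injective (algebraMap B F)) {ι κ : Type*}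
    (u : κ → B) (g : ι → B) (f : B)
    (H : ∀ W : ValuationSubring F, (∀ a : k, algebraMap B F (algebraMap k B a) ∈ W) →
      (∀ j, algebraMap B F (u j) ∈ W) → f ≠ 0 →
      ∃ j, g j ≠ 0 ∧ algebraMap B F f / algebraMap B F (g j) ∈ W) :
    ∃ (T : Finset k) (N : ℕ), 0 < N ∧ ∀ (L : Type v) [Field L] [Algebra k L] (φ : B →ₐ[k] L)
      (w : AbsoluteValue L ℝ), (∀ j, w (φ (u j)) ≤ 1) → ∀ G M : ℝ, 0 ≤ G →
        (∀ j, w (φ (g j)) ≤ G) → 1 ≤ M → (∀ c ∈ T, w (algebraMap k L c) ≤ M) →
        w (φ f) ≤ N * M * G ∧ (IsNonarchimedean w → w (φ f) ≤ M * G) := by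
  classical
  let ρ : MvPolynomial κ k →+* F := (algebraMap B F).comp
    (aeval u : MvPolynomial κ k →ₐ[k] B).toRingHom
  let _ : Algebra (MvPolynomial κ k) F := ρ.toAlgebra
  obtain ⟨n, hn, a, ha, ha0, hs⟩ := exists_forms (k := MvPolynomial κ k)
    (fun j => algebraMap B F (g j)) (algebraMap B F f) (by
      intro W hW hf
      obtain ⟨j, hj, hjW⟩ := H W (fun c => by
        have := hW (MvPolynomial.C c)
        have e : algebraMap (MvPolynomial κ k) F (MvPolynomial.C c) =
            algebraMap B F (algebraMap k B c) := by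
          change algebraMap B F (aeval u (MvPolynomial.C c)) = _
          rw [aeval_C]
        rwa [e] at this) (fun j => by
        have := hW (X j)
        have e : algebraMap (MvPolynomial κ k) F (X j) = algebraMap B F (u j) := by
          change algebraMap B F (aeval u (X j)) = _
          rw [aeval_X]
        rwa [e] at this) (fun h => hf (by rw [h, map_zero]))
      exact ⟨j, fun h => hj (hinj (by rw [h, map_zero])), hjW⟩)
  -- the equation in `B`
  let A : ℕ → B := fun i => eval₂ (aeval u : MvPolynomial κ k →ₐ[k] B).toRingHom g (a i)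
  have hA : ∀ i, aeval (fun j => algebraMap B F (g j)) (a i) = algebraMap B F (A i) := by
    intro i
    rw [aeval_eq_eval₂Hom]
    change eval₂ _ _ _ = algebraMap B F (eval₂ _ _ _)
    rw [eval₂_comp_left]
    rfl
  have heq : ∑ i ∈ Finset.range (n + 1), A i * f ^ (n - i) = 0 := by
    apply hinj
    rw [map_zero, ← hs, map_sum]
    refine Finset.sum_congr rfl fun i _ => ?_
    rw [map_mul, map_pow, hA]
  have hA0 : A 0 = 1 := by
    change eval₂ _ _ (a 0) = 1
    rw [ha0, eval₂_one]
  have hbd : ∀ i, Bdd.{v} (k := k) u g i (A i) := fun i => Bdd.form u g i (a i) (ha i)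
  choose T N hTN using hbd
  let T' : Finset k := (Finset.range (n + 1)).biUnion T
  let N' : ℕ := 1 + ∑ i ∈ Finset.range (n + 1), N i
  refine ⟨T', n * N', Nat.mul_pos hn (by omega), ?_⟩
  intro L _ _ φ w hu G M hG hg hM hT
  have hM0 : 0 ≤ M := by linarith
  have hi : ∀ i ∈ Finset.range (n + 1), w (φ (A i)) ≤ N' * M * G ^ i ∧
      (IsNonarchimedean w → w (φ (A i)) ≤ M * G ^ i) := by
    intro i hi
    obtain ⟨h1, h2⟩ := hTN i L φ w hu G M hG hg hM fun c hc =>
      hT c (Finset.mem_biUnion.mpr ⟨i, hi, hc⟩)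
    refine ⟨h1.trans ?_, h2⟩
    have h3 : N i ≤ N' := by
      have := Finset.single_le_sum (f := N) (fun j _ => Nat.zero_le _) hi
      omega
    have h4 : (N i : ℝ) ≤ N' := by exact_mod_cast h3
    gcongr
  have heqL : φ f ^ n = - ∑ i ∈ Finset.range n, φ (A (i + 1)) * φ f ^ (n - (i + 1)) := by
    have h1 := congrArg φ heq
    rw [map_zero, map_sum, Finset.sum_range_succ', hA0] at h1
    simp only [map_mul, map_pow, Nat.sub_zero, map_one, one_mul] at h1
    linear_combination h1
  have hy : 0 ≤ w (φ f) := w.nonneg _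
  constructor
  · have h1 : w (φ f) ^ n ≤ ∑ i ∈ Finset.range n,
        (N' : ℝ) * M * G ^ (i + 1) * w (φ f) ^ (n - (i + 1)) := by
      rw [← map_pow, heqL, map_neg_eq_map]
      refine (w.sum_le _ _).trans (Finset.sum_le_sum fun i hir => ?_)
      rw [map_mul, map_pow]
      refine mul_le_mul_of_nonneg_right ?_ (pow_nonneg hy _)
      exact (hi (i + 1) (by
        rw [Finset.mem_range] at hir ⊢
        omega)).1
    have h2 := le_of_pow_le_sum hy (by
      have : 1 ≤ N' := by omega
      exact_mod_cast this) hM hG h1 hn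
    push_cast
    exact h2
  · intro hw
    have h1 : ∃ i ∈ Finset.range n, w (∑ i ∈ Finset.range n, φ (A (i + 1)) *
        φ f ^ (n - (i + 1))) ≤ w (φ (A (i + 1)) * φ f ^ (n - (i + 1))) :=
      hw.finset_image_add_of_nonempty _ ⟨0, Finset.mem_range.mpr hn⟩
    obtain ⟨i, hir, h2⟩ := h1
    rw [Finset.mem_range] at hir
    refine le_of_pow_le_term (n := n) (i := i) hy hM hG (by omega) ?_
    rw [← map_pow, heqL, map_neg_eq_map]
    refine h2.trans ?_
    rw [map_mul, map_pow]
    exact mul_le_mul_of_nonneg_right ((hi (i + 1) (by rw [Finset.mem_range]; omega)).2 hw)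
      (pow_nonneg hy _)

end Pool.Agent.KS6_77.VJ
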