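import Mathlib

/-!
# Function fields of curves
-/

namespace Pool.Agent.KS6_77.VJ

open IntermediateField algebraAdjoinAdjoin

/-- `F` is a finitely generated extension of `k` of transcendence degree one. -/
structure CF (k F : Type) [Field k] [Field F] [Algebra k F] : Prop where
  ess : Algebra.EssFiniteType k F
  tr : Algebra.trdeg k F = 1

variable {k K F : Type} [Field k] [Field K] [Field F] [Algebra k K] [Algebra K F] [Algebra k F]
  [IsScalarTower k K F]

theorem CF.of_gen (f : K) (hf : Transcendental k f)
    (hfin : FiniteDimensional (IntermediateField.adjoin k {f}) K) : CF k K := by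
  have h1 : Algebra.EssFiniteType k (IntermediateField.adjoin k {f}) :=
    IntermediateField.essFiniteType_iff.mpr ⟨{f}, by simp⟩
  have h2 : Algebra.EssFiniteType k K := .comp k (IntermediateField.adjoin k {f}) K
  refine ⟨h2, ?_⟩
  have h3 : Algebra.IsAlgebraic (IntermediateField.adjoin k {f}) K := inferInstance
  have h4 : IsTranscendenceBasis k (fun _ : Unit => f) := by
    have h5 : AlgebraicIndependent k (fun _ : Unit => f) := by
      rw [algebraicIndependent_unique_type_iff]
      exact hf
    rw [h5.isTranscendenceBasis_iff_isAlgebraic, Set.range_const]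
    have : Algebra.IsAlgebraic (Algebra.adjoin k {f}) (IntermediateField.adjoin k {f}) :=
      IsLocalization.isAlgebraic _ (nonZeroDivisors (Algebra.adjoin k {f}))
    exact Algebra.IsAlgebraic.trans (Algebra.adjoin k {f}) (IntermediateField.adjoin k {f}) K
  have h5 := h4.cardinalMk_eq_trdeg
  rw [← h5]
  simp

theorem CF.ext [FiniteDimensional K F] (h : CF k K) : CF k F := by
  have h1 := h.ess
  refine ⟨.comp k K F, ?_⟩
  have h2 := trdeg_add_eq k K (A := F)
  rw [(trdeg_eq_zero_iff (R := K) (A := F)).mpr inferInstance, add_zero] at h2
  rw [← h2]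
  exact h.tr

theorem CF.basis (h : CF k F) (s : F) (hs : Transcendental k s) :
    IsTranscendenceBasis k (fun _ : Unit => s) := by
  have h1 : AlgebraicIndependent k (fun _ : Unit => s) := by
    rw [algebraicIndependent_unique_type_iff]
    exact hs
  refine h1.isTranscendenceBasis_of_trdeg_le_of_finite ?_
  rw [h.tr]
  simp

theorem CF.alg (h : CF k F) (s : F) (hs : Transcendental k s) :
    Algebra.IsAlgebraic (IntermediateField.adjoin k {s}) F := by
  have h1 := (h.basis s hs).isAlgebraic_field
  rwa [Set.range_const] at h1

theorem CF.fin (h : CF k F) (s : F) (hs : Transcendental k s) :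
    FiniteDimensional (IntermediateField.adjoin k {s}) F := by
  have h1 := h.alg s hs
  have h2 := h.ess
  have h3 : Algebra.EssFiniteType (IntermediateField.adjoin k {s}) F :=
    .of_comp k (IntermediateField.adjoin k {s}) F
  exact Algebra.finite_of_essFiniteType_of_isAlgebraic

end Pool.Agent.KS6_77.VJ
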