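import Pool.Agent.KS6_77.VJ.Loc

/-!
# Derivations and places
-/

namespace Pool.Agent.KS6_77.VJ

open IsDedekindDomain KS6_16.VJ

variable {k F : Type} [Field k] [Field F] [Algebra k F]

lemma unif_lt_one {O : ValuationSubring F} {π : F} (hπ : Unif O π) : O.valuation π < 1 :=
  (hπ π).mpr le_rfl

lemma unif_div_mem {O : ValuationSubring F} {π : F} (hπ : Unif O π) {y : F}
    (hy : O.valuation y < 1) : ∃ z ∈ O, y = π * z := by
  have h1 := (hπ y).mp hy
  by_cases h0 : π = 0
  · rw [h0, map_zero, le_zero_iff, map_eq_zero] at h1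
    exact ⟨0, O.zero_mem, by rw [h1, mul_zero]⟩
  · refine ⟨y / π, ?_, by rw [mul_div_cancel₀ _ h0]⟩
    rw [← val_le_one_iff, map_div₀]
    exact div_le_one_of_le₀ h1 zero_le

lemma unif_val_eq {O : ValuationSubring F} {π π' : F} (hπ : Unif O π) (hπ' : Unif O π') :
    O.valuation π = O.valuation π' :=
  le_antisymm ((hπ' π).mp (unif_lt_one hπ)) ((hπ π').mp (unif_lt_one hπ'))

lemma unif_ne_zero {O : ValuationSubring F} (hO : O ≠ ⊤) {π : F} (hπ : Unif O π) : π ≠ 0 := by
  rintro rfl
  apply hO
  rw [eq_top_iff]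
  intro x _
  by_contra hx
  have hx0 : x ≠ 0 := by rintro rfl; exact hx O.zero_mem
  have hx1 : 1 < O.valuation x := by
    rw [← not_le, val_le_one_iff]
    exact hx
  have h1 : O.valuation x⁻¹ < 1 := by
    rw [map_inv₀]
    exact (inv_lt_one₀ (val_pos hx0)).mpr hx1
  have h2 := (hπ x⁻¹).mp h1
  rw [map_zero, le_zero_iff, map_eq_zero] at h2
  exact hx0 (inv_eq_zero.mp h2)

variable [CharZero k]

/-- Derivations are determined by, and bounded by, their value at a uniformiser. -/
theorem der_le (h : CF k F) {O : ValuationSubring F} (hO : IsPlace k O) (D : Derivation k F F)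
    {π : F} (hπ : Unif O π) {x : F} (hx : x ∈ O) : O.valuation (D x) ≤ O.valuation (D π) := by
  classical
  obtain ⟨s, hs, hs1, hs0⟩ := exists_transc hO
  have := model_dedekind h s hs
  have := model_frac h s hs
  have hsO : s ∈ O := val_le_one_iff.mp hs1.le
  obtain ⟨S, hS1, hS2⟩ := model_ft h s hs
  have hSO : ∀ y ∈ (S : Set F), y ∈ O := fun y hy =>
    integral_mem hO.1 (S := {s}) (by rintro x rfl; exact hsO) (hS1 y hy)
  let Λ : Submodule O F := Submodule.span O ((fun y => D y) '' (S : Set F))
  let N : Submodule O F := Submodule.span O {D π}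
  have hadj : ∀ y ∈ Algebra.adjoin k (S : Set F), D y ∈ Λ := by
    intro y hy
    induction hy using Algebra.adjoin_induction with
    | mem y hy => exact Submodule.subset_span ⟨y, hy, rfl⟩
    | algebraMap a => rw [D.map_algebraMap]; exact Submodule.zero_mem _
    | add y z _ _ hy hz => rw [map_add]; exact Submodule.add_mem _ hy hz
    | mul y z hy' hz' hy hz =>
      rw [D.leibniz]
      exact Submodule.add_mem _ (Submodule.smul_mem Λ (⟨y, adjoin_mem hO.1 hSO hy'⟩ : O) hz)
        (Submodule.smul_mem Λ (⟨z, adjoin_mem hO.1 hSO hz'⟩ : O) hy)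
  have hall : ∀ y ∈ O, D y ∈ Λ := by
    intro y hy
    obtain ⟨b, c, hb, hc⟩ := dn_of_dedekind (A := integralClosure (Algebra.adjoin k {s}) F)
      (F := F) O (fun a => integral_mem hO.1 (S := {s}) (by rintro x rfl; exact hsO)
        (show IsIntegral (Algebra.adjoin k {s}) (a : F) from a.2)) y hy
    change O.valuation (b : F) = 1 at hb
    change (b : F) * y = (c : F) at hc
    have h1 : D (c : F) = (b : F) * D y + y * D (b : F) := by
      rw [← hc, D.leibniz, smul_eq_mul, smul_eq_mul]
    have hb0 : (b : F) ≠ 0 := by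
      intro h0
      rw [h0, map_zero] at hb
      exact zero_ne_one hb
    have hbi : (b : F)⁻¹ ∈ O := val_le_one_iff.mp (val_inv_one hb).le
    have h2 : D y = (⟨(b : F)⁻¹, hbi⟩ : O) • (D (c : F) - (⟨y, hy⟩ : O) • D (b : F)) := by
      change D y = (b : F)⁻¹ * (D (c : F) - y * D (b : F))
      rw [h1]
      field_simp
      ring
    rw [h2]
    exact Submodule.smul_mem _ _ (Submodule.sub_mem _ (hadj _ (hS2 _ c.2))
      (Submodule.smul_mem _ _ (hadj _ (hS2 _ b.2))))
  have hπO : π ∈ O := val_le_one_iff.mp (unif_lt_one hπ).le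
  have hle : Λ ≤ N := by
    refine Submodule.le_of_le_smul_of_le_jacobson_bot (I := IsLocalRing.maximalIdeal O)
      (Submodule.fg_span (S.finite_toSet.image _)) ?_ ?_
    · exact IsLocalRing.maximalIdeal_le_jacobson _
    · refine Submodule.span_le.mpr ?_
      rintro _ ⟨y, hy, rfl⟩
      obtain ⟨p, hp0, hp1, hp2, -⟩ := exists_min h hO (hSO y hy)
      obtain ⟨z, hz, hpz⟩ := unif_div_mem hπ hp1
      have h1 : D (Polynomial.aeval y p) =
          Polynomial.aeval y (Polynomial.derivative p) * D y := by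
        rw [Derivation.map_aeval, smul_eq_mul]
      rw [hpz, D.leibniz, smul_eq_mul, smul_eq_mul] at h1
      set e : F := Polynomial.aeval y (Polynomial.derivative p) with he
      have he0 : e ≠ 0 := by
        intro h0
        rw [h0, map_zero] at hp2
        exact zero_ne_one hp2
      have hei : e⁻¹ ∈ O := val_le_one_iff.mp (val_inv_one hp2).le
      have h2 : D y = ((⟨e⁻¹ * z, O.mul_mem _ _ hei hz⟩ : O) • D π) +
          ((⟨π, hπO⟩ : O) • ((⟨e⁻¹, hei⟩ : O) • D z)) := by
        change D y = e⁻¹ * z * D π + π * (e⁻¹ * D z)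
        field_simp
        linear_combination -h1
      change D y ∈ N ⊔ (IsLocalRing.maximalIdeal O) • Λ
      rw [h2]
      refine Submodule.add_mem_sup (Submodule.smul_mem _ _ (Submodule.mem_span_singleton_self _))
        (Submodule.smul_mem_smul ?_ (Submodule.smul_mem _ _ (hall z hz)))
      rw [O.valuation_lt_one_iff]
      exact (unif_lt_one hπ)
  have h1 := hle (hall x hx)
  rw [Submodule.mem_span_singleton] at h1
  obtain ⟨a, ha⟩ := h1
  have h2 : D x = (a : F) * D π := ha.symm
  rw [h2, map_mul]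
  exact mul_le_of_le_one_left' (val_le_one_iff.mpr a.2)

theorem der_unif_ne (h : CF k F) {O : ValuationSubring F} (hO : IsPlace k O)
    {D : Derivation k F F} (hD : D ≠ 0) {π : F} (hπ : Unif O π) : D π ≠ 0 := by
  intro h0
  apply hD
  have h1 : ∀ x ∈ O, D x = 0 := by
    intro x hx
    have := der_le h hO D hπ hx
    rwa [h0, map_zero, le_zero_iff, map_eq_zero] at this
  ext x
  rcases O.mem_or_inv_mem x with hx | hx
  · rw [h1 x hx]; rfl
  · by_cases hx0 : x = 0
    · rw [hx0, map_zero, map_zero]
    · have h2 := congrArg D (mul_inv_cancel₀ hx0)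
      rw [D.leibniz, h1 _ hx, smul_zero, zero_add, D.map_one_eq_zero, smul_eq_mul] at h2
      rcases mul_eq_zero.mp h2 with h3 | h3
      · exact absurd h3 (inv_ne_zero hx0)
      · rw [h3]; rfl

/-- The logarithmic derivative of a function with a zero or a pole. -/
theorem der_dlog (h : CF k F) {O : ValuationSubring F} (hO : IsPlace k O)
    {D : Derivation k F F} (hD : D ≠ 0) {π : F} (hπ : Unif O π) {z : F} (hz0 : z ≠ 0)
    (hz : O.valuation z ≠ 1) :
    O.valuation (D z) * O.valuation π = O.valuation z * O.valuation (D π) := by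
  obtain ⟨π', hπ'0, hπ', hdec⟩ := exists_unif h hO
  have hDπ' := der_unif_ne h hO hD hπ'
  have e1 : O.valuation π = O.valuation π' := unif_val_eq hπ hπ'
  have e2 : O.valuation (D π) = O.valuation (D π') :=
    le_antisymm (der_le h hO D hπ' (val_le_one_iff.mp (unif_lt_one hπ).le))
      (der_le h hO D hπ (val_le_one_iff.mp (unif_lt_one hπ').le))
  rw [e1, e2]
  obtain ⟨m, u, hu, rfl⟩ := hdec z hz0
  have hm : m ≠ 0 := by
    rintro rfl
    rw [zpow_zero, mul_one] at hz
    exact hz hu
  have hmk : O.valuation ((m : ℤ) : F) = 1 := by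
    have h1 : ((m : ℤ) : F) = algebraMap k F (m : k) := by simp
    rw [h1]
    exact const_val hO.1 (by exact_mod_cast hm)
  have huO : u ∈ O := val_le_one_iff.mp hu.le
  have h1 : D (u * π' ^ m) = π' ^ m * D u + (m : F) * u * π' ^ (m - 1) * D π' := by
    rw [D.leibniz, Derivation.leibniz_zpow]
    simp only [smul_eq_mul, zsmul_eq_mul]
    ring
  have h2 : D (u * π' ^ m) * π' = π' ^ m * (π' * D u + (m : F) * u * D π') := by
    rw [h1, add_mul, mul_add]
    have h3 : π' ^ (m - 1) * π' = π' ^ m := by
      rw [← zpow_add_one₀ hπ'0, sub_add_cancel]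
    linear_combination (↑m * u * D π') * h3
  rw [← map_mul, h2, map_mul, map_mul, hu, one_mul]
  congr 1
  have h4 : O.valuation ((m : F) * u * D π') = O.valuation (D π') := by
    rw [map_mul, map_mul, hmk, hu, one_mul, one_mul]
  rw [← h4]
  refine Valuation.map_add_eq_of_lt_right _ ?_
  rw [h4, map_mul]
  have h5 := der_le h hO D hπ' huO
  have h6 : 0 < O.valuation (D π') := val_pos hDπ'
  calc O.valuation π' * O.valuation (D u) ≤ O.valuation π' * O.valuation (D π') :=
        mul_le_mul_right h5 _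
    _ < 1 * O.valuation (D π') := mul_lt_mul_of_pos_right (unif_lt_one hπ') h6
    _ = O.valuation (D π') := one_mul _

end Pool.Agent.KS6_77.VJ
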