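import Pool.Agent.KS6_77.VJ.Spec
import Pool.Agent.KS6_77.VJ.BP

/-!
# The function field part
-/

namespace Pool.Agent.KS6_77.VJ

open IsDedekindDomain KS6_16.VJ NumberField
open scoped LaurentPolynomial

theorem exists_place_lt {k F : Type} [Field k] [Field F] [Algebra k F] (t : F)
    (htr : Transcendental k t) : ∃ O : ValuationSubring F, IsPlace k O ∧ O.valuation t < 1 := by
  have ht0 : t ≠ 0 := by
    rintro rfl
    exact htr isAlgebraic_zero
  let A : Subring F := (Algebra.adjoin k {t}).toSubring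
  have htA : t ∈ A := Algebra.subset_adjoin (Set.mem_singleton t)
  let I : Ideal A := Ideal.span {⟨t, htA⟩}
  have hI : I ≠ ⊤ := by
    intro h
    rw [Ideal.eq_top_iff_one, Ideal.mem_span_singleton] at h
    obtain ⟨a, ha⟩ := h
    have ha' : (1 : F) = t * (a : F) := congrArg Subtype.val ha
    have haA : (a : F) ∈ Algebra.adjoin k {t} := a.2
    rw [Algebra.adjoin_singleton_eq_range_aeval] at haA
    obtain ⟨p, hp⟩ := haA
    have hp' : Polynomial.aeval t p = (a : F) := hp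
    refine htr ⟨Polynomial.X * p - 1, ?_, ?_⟩
    · intro h0
      have := congrArg (Polynomial.eval 0) h0
      simp at this
    · rw [map_sub, map_mul, Polynomial.aeval_X, hp', ← ha', map_one, sub_self]
  obtain ⟨O, hO, hO'⟩ := Ideal.image_subset_nonunits_valuationSubring I hI
  have htn : t ∈ O.nonunits := hO' ⟨⟨t, htA⟩, Ideal.mem_span_singleton_self _, rfl⟩
  rw [ValuationSubring.mem_nonunits_iff] at htn
  refine ⟨O, ⟨fun a => hO (Subalgebra.algebraMap_mem _ a), ?_⟩, htn⟩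
  intro htop
  have h1 : t⁻¹ ∈ O := by rw [htop]; exact ValuationSubring.mem_top _
  rw [← val_le_one_iff, map_inv₀] at h1
  exact absurd htn (not_lt_of_ge ((inv_le_one₀ (val_pos ht0)).mp h1))

theorem der_t_ne {k F : Type} [Field k] [CharZero k] [Field F] [Algebra k F] (hF : CF k F)
    (t : F) (htr : Transcendental k t) {D : Derivation k F F} (hD : D ≠ 0) : D t ≠ 0 := by
  obtain ⟨O, hO, ht⟩ := exists_place_lt t htr
  obtain ⟨π, hπ0, hπ, -⟩ := exists_unif hF hO
  have ht0 : t ≠ 0 := by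
    rintro rfl
    exact htr isAlgebraic_zero
  have h1 := der_dlog hF hO hD hπ ht0 ht.ne
  intro h0
  rw [h0, map_zero, zero_mul] at h1
  exact absurd h1.symm (mul_ne_zero (val_pos ht0).ne' (val_pos (der_unif_ne hF hO hD hπ)).ne')

section sup

lemma exists_sup {ι : Type} [Finite ι] [Nonempty ι] (x : ι → ℝ) : ∃ i, ⨆ i, x i = x i := by
  obtain ⟨i, hi⟩ := exists_eq_ciSup_of_finite (f := x)
  exact ⟨i, hi.symm⟩

lemma le_sup {ι : Type} [Finite ι] (x : ι → ℝ) (i : ι) : x i ≤ ⨆ i, x i :=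
  le_ciSup (Set.finite_range x).bddAbove i

lemma sup_nonneg {ι : Type} (x : ι → ℝ) (hx : ∀ i, 0 ≤ x i) : 0 ≤ ⨆ i, x i :=
  Real.iSup_nonneg hx

end sup

/-- Passage from the bounds for single functions to the bounds for tuples: two tuples. -/
lemma tuple_bound {F L : Type} [Field F] [Field L] {O : ValuationSubring F} (Φ : O →+* L)
    (w : AbsoluteValue L ℝ) {n m : ℕ} [Nonempty (Fin n)] [Nonempty (Fin m)] (G : F)
    (p : Fin n → F) (p' : Fin m → F) (hG : G ∈ O) (hp : ∀ i, p i ∈ O) (hp' : ∀ i, p' i ∈ O)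
    {R : ℝ} (h : ∀ i i', w (ev Φ (G * p i * p' i')) ≤ R) :
    w (ev Φ G) * (⨆ i, w (ev Φ (p i))) * (⨆ i, w (ev Φ (p' i))) ≤ R := by
  obtain ⟨i, hi⟩ := exists_sup (fun i => w (ev Φ (p i)))
  obtain ⟨i', hi'⟩ := exists_sup (fun i => w (ev Φ (p' i)))
  rw [hi, hi', ← map_mul, ← map_mul, ← ev_mul Φ hG (hp i),
    ← ev_mul Φ (O.mul_mem _ _ hG (hp i)) (hp' i')]
  exact h i i'

/-- Passage from the bounds for single functions to the bounds for tuples: one tuple. -/
lemma tuple_bound1 {F L : Type} [Field F] [Field L] {O : ValuationSubring F} (Φ : O →+* L)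
    (w : AbsoluteValue L ℝ) {n : ℕ} [Nonempty (Fin n)] (G : F)
    (p : Fin n → F) (hG : G ∈ O) (hp : ∀ i, p i ∈ O)
    {R : ℝ} (h : ∀ i, w (ev Φ (G * p i)) ≤ R) :
    w (ev Φ G) * (⨆ i, w (ev Φ (p i))) ≤ R := by
  obtain ⟨i, hi⟩ := exists_sup (fun i => w (ev Φ (p i)))
  rw [hi, ← map_mul, ← ev_mul Φ hG (hp i)]
  exact h i

lemma mul_le_sup {F L : Type} [Field F] [Field L] {O : ValuationSubring F} (Φ : O →+* L)
    (w : AbsoluteValue L ℝ) {ι κ : Type} [Finite ι] [Finite κ]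
    (q : ι → F) (q' : κ → F) (hq : ∀ i, q i ∈ O) (hq' : ∀ i, q' i ∈ O) (j : ι) (j' : κ) :
    w (ev Φ (q j * q' j')) ≤ (⨆ i, w (ev Φ (q i))) * (⨆ i, w (ev Φ (q' i))) := by
  rw [ev_mul Φ (hq j) (hq' j'), map_mul]
  exact mul_le_mul (le_sup (fun i => w (ev Φ (q i))) j) (le_sup (fun i => w (ev Φ (q' i))) j')
    (w.nonneg _) (sup_nonneg _ fun _ => w.nonneg _)

theorem stO : StO := by
  intro k K F _ _ _ _ _ _ _ _ _ hf 𝒟 t hc hyp D hD n₁ n₂ n₃ n₄ p q p' q' hcan hdiv
    B _ _ _ _ _ _ _ hT hC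
  classical
  obtain ⟨f, hf1, hf2⟩ := hf
  have hK : CF k K := CF.of_gen f hf1 hf2
  have hF : CF k F := hK.ext
  obtain ⟨D', hD'⟩ := exists_der_ext (F := F) D
  have hDne : D' ≠ 0 := by
    intro h0
    apply hD
    ext x
    have h1 := hD' x
    rw [h0] at h1
    have h2 : algebraMap K F (D x) = 0 := h1.symm
    rw [map_eq_zero] at h2
    rw [h2]
    rfl
  have ht0 : t ≠ 0 := by
    rintro rfl
    exact hc.1 isAlgebraic_zero
  set G : F := D' t / t with hG
  have hG0 : G ≠ 0 := div_ne_zero (der_t_ne hF t hc.1 hDne) ht0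
  obtain ⟨P, S, hP, hSP, hS0, hSval⟩ :=
    val_special (B := B) hK hc hyp hDne hD' hcan hdiv hT hC
  obtain ⟨Δ, hΔ⟩ : (differentIdeal k[T;T⁻¹] B).FG := IsNoetherian.noetherian _
  have hΔm : ∀ δ ∈ Δ, δ ∈ differentIdeal k[T;T⁻¹] B := fun δ hδ =>
    hΔ ▸ Submodule.subset_span hδ
  -- a place where `t` is a unit
  obtain ⟨O₀, hO₀, ht₀, ht₀', -⟩ := hyp
  have hmain := fun O (hO : IsPlace k O) => val_main hK hc hDne hD' hcan hdiv hO
  -- (O2) in terms of orders
  have hram : ∀ O : ValuationSubring F, IsPlace k O → t ∈ O → t⁻¹ ∈ O →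
      ∃ j, ∃ δ ∈ Δ, q j ≠ 0 ∧ δ ≠ 0 ∧ ∀ i, O.valuation (G * algebraMap K F (p i)) ≤
        O.valuation (algebraMap K F (q j) * algebraMap B F δ) := by
    intro O hO ht ht'
    obtain ⟨z, hz, hz', j, hj, hcj⟩ := core_can hK hc hD' hcan hO
    obtain ⟨δ, hδ, hδ0, hδv⟩ := val_ram hF hc.1 hT hC hDne hO ht ht' (hz' ht ht') Δ hΔ
    refine ⟨j, δ, hδ, hj, hδ0, fun i => ?_⟩
    rw [map_mul, map_mul]
    calc O.valuation G * O.valuation (algebraMap K F (p i)) ≤
          (O.valuation (algebraMap B F δ) * O.valuation (D' (algebraMap K F z))) *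
            O.valuation (algebraMap K F (p i)) := mul_le_mul' hδv le_rfl
      _ = (O.valuation (algebraMap K F (p i)) * O.valuation (D' (algebraMap K F z))) *
            O.valuation (algebraMap B F δ) := by ac_rfl
      _ ≤ _ := mul_le_mul' (hcj i) le_rfl
  have hΔ0 : ∃ δ ∈ Δ, δ ≠ 0 := by
    obtain ⟨-, δ, hδ, -, hδ0, -⟩ := hram O₀ hO₀ ht₀ ht₀'
    exact ⟨δ, hδ, hδ0⟩
  -- the index sets are not empty
  have hP₀ : IsPlace k (dn K O₀) :=
    dn_place (fun a => (IsScalarTower.algebraMap_apply k K F a).symm) hO₀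
  obtain ⟨z₀, hz₀, -⟩ := core_can hK hc hD' hcan hO₀
  obtain ⟨i₁, j₁, hi₁, hj₁, -⟩ := hcan _ hP₀ z₀ hz₀
  have hne₁ : Nonempty (Fin n₁) := ⟨i₁⟩
  have hne₃ : Nonempty (Fin n₃) := by
    by_cases hm : dn K O₀ ∈ 𝒟
    · obtain ⟨i, -⟩ := (hdiv _ hP₀).1 hm z₀ hz₀
      exact ⟨i⟩
    · obtain ⟨i, -⟩ := (hdiv _ hP₀).2 hm
      exact ⟨i⟩
  have hinj : Function.Injective (algebraMap K F) := (algebraMap K F).injective
  have hBinj : Function.Injective (algebraMap B F) := IsFractionRing.injective B F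
  -- the bounds
  obtain ⟨T₁, N₁, hN₁, hb₁⟩ := exists_bound_place (k := k)
    (u := (Empty.elim : Empty → F))
    (g := fun j : Fin n₂ × Fin n₄ => algebraMap K F (q j.1) * algebraMap K F (q' j.2))
    (f := fun i : Fin n₁ × Fin n₃ => G * algebraMap K F (p i.1) * algebraMap K F (p' i.2)) (by
      intro i W hW _ _
      by_cases hWt : W = ⊤
      · obtain ⟨j, j', hj, hj', -⟩ := hmain O₀ hO₀
        refine ⟨(j, j'), mul_ne_zero (by simpa using hj) (by simpa using hj'), ?_⟩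
        rw [hWt]
        exact ValuationSubring.mem_top _
      · obtain ⟨j, j', hj, hj', hv⟩ := hmain W ⟨hW, hWt⟩
        have h0 : algebraMap K F (q j) * algebraMap K F (q' j') ≠ 0 :=
          mul_ne_zero (by simpa using hj) (by simpa using hj')
        refine ⟨(j, j'), h0, ?_⟩
        rw [← val_le_one_iff, map_div₀, div_le_one₀ (val_pos h0)]
        exact hv i.1 i.2)
  obtain ⟨T₂, N₂, hN₂, hb₂⟩ := exists_bound_place (k := k)
    (u := fun b : Bool => if b then t else t⁻¹)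
    (g := fun j : Fin n₂ × Δ => algebraMap K F (q j.1) * algebraMap B F j.2)
    (f := fun i : Fin n₁ => G * algebraMap K F (p i)) (by
      intro i W hW hu _
      have htW : t ∈ W := hu true
      have htW' : t⁻¹ ∈ W := hu false
      by_cases hWt : W = ⊤
      · obtain ⟨j, δ, hδ, hj, hδ0, -⟩ := hram O₀ hO₀ ht₀ ht₀'
        refine ⟨(j, ⟨δ, hδ⟩), mul_ne_zero (by simpa using hj) (fun h => hδ0 (hBinj (by
          rw [map_zero]; exact h))), ?_⟩
        rw [hWt]
        exact ValuationSubring.mem_top _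
      · obtain ⟨j, δ, hδ, hj, hδ0, hv⟩ := hram W ⟨hW, hWt⟩ htW htW'
        have h0 : algebraMap K F (q j) * algebraMap B F δ ≠ 0 :=
          mul_ne_zero (by simpa using hj) (fun h => hδ0 (hBinj (by
            rw [map_zero]; exact h)))
        refine ⟨(j, ⟨δ, hδ⟩), h0, ?_⟩
        rw [← val_le_one_iff, map_div₀, div_le_one₀ (val_pos h0)]
        exact hv i)
  obtain ⟨d₁, C₁, hd₁, hC₁, hcst₁⟩ := Pool.Agent.KS6_8.VJ.exists_const T₁
  obtain ⟨d₂, C₂, hd₂, hC₂, hcst₂⟩ := Pool.Agent.KS6_8.VJ.exists_const T₂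
  refine ⟨G, Δ, S, P, hG0, hΔm, hΔ0, hP, hSP, hS0, fun n => ⟨d₂, hd₂, fun R => ?_⟩⟩
  -- (O3) for the given `R`
  obtain ⟨R', hR'⟩ : ∃ R' : ℕ, R ≤ R' := exists_nat_ge R
  set r : ℕ := R' + 1 with hr
  have hr0 : (r : k) ≠ 0 := by
    have : r ≠ 0 := by omega
    exact_mod_cast this
  have hr0F : (r : F) ≠ 0 := by
    have : CharZero F := charZero_of_injective_algebraMap (algebraMap k F).injective
    have : r ≠ 0 := by omega
    exact_mod_cast this
  have hrmem : ∀ W : ValuationSubring F, (∀ c : k, algebraMap k F c ∈ W) →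
      (r : F) ∈ W ∧ (r : F)⁻¹ ∈ W := by
    intro W hW
    constructor
    · have := hW (r : k)
      rwa [map_natCast] at this
    · have := hW (r : k)⁻¹
      rwa [map_inv₀, map_natCast] at this
  obtain ⟨T₃, N₃, hN₃, hb₃⟩ := exists_bound_place (k := k)
    (u := fun b : Bool => if b then t * (r : F)⁻¹ else t⁻¹ * (r : F)⁻¹)
    (g := fun j : (Fin n₂ × Fin n₄) × S =>
      algebraMap K F (q j.1.1) * algebraMap K F (q' j.1.2) * algebraMap B F j.2)
    (f := fun i : Fin n₁ × Fin n₃ => G * algebraMap K F (p i.1) * algebraMap K F (p' i.2)) (by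
      intro i W hW hu _
      have htW : t ∈ W := by
        have h1 : t * (r : F)⁻¹ ∈ W := hu true
        have h2 : t = t * (r : F)⁻¹ * r := by rw [mul_assoc, inv_mul_cancel₀ hr0F, mul_one]
        rw [h2]
        exact W.mul_mem _ _ h1 (hrmem W hW).1
      have htW' : t⁻¹ ∈ W := by
        have h1 : t⁻¹ * (r : F)⁻¹ ∈ W := hu false
        have h2 : t⁻¹ = t⁻¹ * (r : F)⁻¹ * r := by rw [mul_assoc, inv_mul_cancel₀ hr0F, mul_one]
        rw [h2]
        exact W.mul_mem _ _ h1 (hrmem W hW).1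
      have hs0 : ∀ s : B, s ≠ 0 → algebraMap B F s ≠ 0 := fun s hs h => hs (hBinj (by
        rw [map_zero]; exact h))
      by_cases hWt : W = ⊤
      · obtain ⟨j, j', s, hs, hj, hj', hs', -⟩ := hSval O₀ hO₀ ht₀ ht₀'
        refine ⟨((j, j'), ⟨s, hs⟩), mul_ne_zero (mul_ne_zero (by simpa using hj)
          (by simpa using hj')) (hs0 s hs'), ?_⟩
        rw [hWt]
        exact ValuationSubring.mem_top _
      · obtain ⟨j, j', s, hs, hj, hj', hs', hv⟩ := hSval W ⟨hW, hWt⟩ htW htW'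
        have h0 : algebraMap K F (q j) * algebraMap K F (q' j') * algebraMap B F s ≠ 0 :=
          mul_ne_zero (mul_ne_zero (by simpa using hj) (by simpa using hj')) (hs0 s hs')
        refine ⟨((j, j'), ⟨s, hs⟩), h0, ?_⟩
        rw [← val_le_one_iff, map_div₀, div_le_one₀ (val_pos h0)]
        exact hv i.1 i.2)
  obtain ⟨d₃, C₃, hd₃, hC₃, hcst₃⟩ := Pool.Agent.KS6_8.VJ.exists_const T₃
  have hN₁' : (1 : ℝ) ≤ N₁ := by exact_mod_cast hN₁
  have hN₃' : (1 : ℝ) ≤ N₃ := by exact_mod_cast hN₃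
  have hd₁' : (1 : ℝ) ≤ d₁ := by exact_mod_cast hd₁
  have hd₁n : (1 : ℝ) ≤ (d₁ : ℝ) ^ n := one_le_pow₀ hd₁'
  refine ⟨(d₁ : ℝ) ^ n + N₁ * C₁ + N₃ * C₃, ?_, ?_⟩
  · have : 0 ≤ (N₁ : ℝ) * C₁ := by positivity
    have : 0 ≤ (N₃ : ℝ) * C₃ := by positivity
    linarith
  set H : ℝ := (d₁ : ℝ) ^ n + N₁ * C₁ + N₃ * C₃ with hH
  have hH1 : (d₁ : ℝ) ^ n ≤ H := by
    have : 0 ≤ (N₁ : ℝ) * C₁ := by positivity
    have : 0 ≤ (N₃ : ℝ) * C₃ := by positivity
    linarith
  have hH2 : (N₁ : ℝ) * C₁ ≤ H := by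
    have : 0 ≤ (N₃ : ℝ) * C₃ := by positivity
    linarith
  have hH3 : (N₃ : ℝ) * C₃ ≤ H := by
    have : 0 ≤ (N₁ : ℝ) * C₁ := by positivity
    linarith
  intro L _ _ hLn O Φ hO ht ht' hGO hp hq hp' hq'
  have hk := hO.1
  have hBO : ∀ b : B, algebraMap B F b ∈ O := B_mem hT hC ht0 hO ht ht'
  have hgO : ∀ j : Fin n₂ × Fin n₄, algebraMap K F (q j.1) * algebraMap K F (q' j.2) ∈ O :=
    fun j => O.mul_mem _ _ (hq _) (hq' _)
  have hfO : ∀ i : Fin n₁ × Fin n₃,
      G * algebraMap K F (p i.1) * algebraMap K F (p' i.2) ∈ O :=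
    fun i => O.mul_mem _ _ (O.mul_mem _ _ hGO (hp _)) (hp' _)
  have hnn : ∀ w : AbsoluteValue L ℝ, 0 ≤ (⨆ i, w (ev Φ (algebraMap K F (q i)))) *
      (⨆ i, w (ev Φ (algebraMap K F (q' i)))) := fun w =>
    mul_nonneg (sup_nonneg _ fun _ => w.nonneg _) (sup_nonneg _ fun _ => w.nonneg _)
  refine ⟨fun w => ?_, fun w => ?_, fun w hwN hwt => ?_, fun w hw1 hw2 => ?_⟩
  · -- (O1), finite places
    have hM : (1 : ℝ) ≤ (w (d₁ : L))⁻¹ := by
      rw [one_le_inv₀ (Pool.Agent.KS6_8.VJ.finitePlace_nat_pos w d₁ hd₁)]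
      exact Pool.Agent.KS6_8.VJ.finitePlace_nat_le w d₁
    have h1 := hb₁ L O Φ hk (fun j => j.elim) hgO hfO w.1 (fun j => j.elim) _ (w (d₁ : L))⁻¹
      (hnn w.1) (fun j => mul_le_sup Φ w.1 (fun i => algebraMap K F (q i))
        (fun i => algebraMap K F (q' i)) hq hq' j.1 j.2) hM
      (fun c hc => (hcst₁ L (evk Φ hk) c hc).2.1 w)
    refine (tuple_bound Φ w.1 G (fun i => algebraMap K F (p i)) (fun i => algebraMap K F (p' i))
      hGO hp hp' (fun i i' => ((h1 (i, i')).2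
        (Pool.Agent.KS6_8.VJ.finitePlace_isNonarchimedean w)))).trans ?_
    refine mul_le_mul_of_nonneg_right ?_ (hnn w.1)
    refine (Pool.Agent.KS6_8.VJ.finitePlace_nat_inv_le w d₁ hd₁).trans (le_trans ?_ hH1)
    exact pow_le_pow_right₀ hd₁' hLn
  · -- (O1), infinite places
    have h1 := hb₁ L O Φ hk (fun j => j.elim) hgO hfO w.1 (fun j => j.elim) _ C₁
      (hnn w.1) (fun j => mul_le_sup Φ w.1 (fun i => algebraMap K F (q i))
        (fun i => algebraMap K F (q' i)) hq hq' j.1 j.2) hC₁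
      (fun c hc => (hcst₁ L (evk Φ hk) c hc).2.2 w)
    refine (tuple_bound Φ w.1 G (fun i => algebraMap K F (p i)) (fun i => algebraMap K F (p' i))
      hGO hp hp' (fun i i' => ((h1 (i, i')).1))).trans ?_
    exact mul_le_mul_of_nonneg_right hH2 (hnn w.1)
  · -- (O2)
    have hu : ∀ b : Bool, w.1 (ev Φ (if b then t else t⁻¹)) ≤ 1 := by
      intro b
      cases b
      · have h1 : ev Φ t * ev Φ t⁻¹ = 1 := by
          rw [← ev_mul Φ ht ht', mul_inv_cancel₀ ht0, ev_of_mem Φ O.one_mem]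
          exact map_one Φ
        have h2 : w.1 (ev Φ t) * w.1 (ev Φ t⁻¹) = 1 := by rw [← map_mul, h1, map_one]
        have h3 : w.1 (ev Φ t) = 1 := hwt
        rw [h3, one_mul] at h2
        exact h2.le
      · exact hwt.le
    have h1 := hb₂ L O Φ hk (fun b => by cases b; exact ht'; exact ht)
      (fun j => O.mul_mem _ _ (hq _) (hBO _)) (fun i => O.mul_mem _ _ hGO (hp _)) w.1 hu
      ((⨆ i, w.1 (ev Φ (algebraMap K F (q i)))) * (⨆ δ : Δ, w.1 (ev Φ (algebraMap B F δ)))) 1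
      (mul_nonneg (sup_nonneg _ fun _ => w.1.nonneg _) (sup_nonneg _ fun _ => w.1.nonneg _))
      (fun j => mul_le_sup Φ w.1 (fun i => algebraMap K F (q i))
        (fun δ : Δ => algebraMap B F δ) hq (fun δ => hBO _) j.1 j.2) le_rfl
      (fun c hc => by
        refine ((hcst₂ L (evk Φ hk) c hc).2.1 w).trans ?_
        rw [hwN, inv_one])
    refine (tuple_bound1 Φ w.1 G (fun i => algebraMap K F (p i)) hGO hp (fun i => ((h1 i).2
        (Pool.Agent.KS6_8.VJ.finitePlace_isNonarchimedean w)))).trans ?_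
    rw [one_mul]
    exact le_rfl
  · -- (O3)
    have hrL : (1 : ℝ) ≤ r := by
      have : 1 ≤ r := by omega
      exact_mod_cast this
    have hRr : R ≤ r := by
      rw [hr]
      push_cast
      linarith
    have hrO := hrmem O hk
    have hevr : ev Φ (r : F) = (r : L) := by
      rw [ev_of_mem Φ hrO.1]
      have : (⟨(r : F), hrO.1⟩ : O) = (r : O) := by
        apply Subtype.ext
        rfl
      rw [this, map_natCast]
    have hrLne : (r : L) ≠ 0 := by
      have : r ≠ 0 := by omega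
      exact_mod_cast this
    have hevri : ev Φ (r : F)⁻¹ = (r : L)⁻¹ := by
      have h1 : ev Φ (r : F) * ev Φ (r : F)⁻¹ = 1 := by
        rw [← ev_mul Φ hrO.1 hrO.2, mul_inv_cancel₀ hr0F, ev_of_mem Φ O.one_mem]
        exact map_one Φ
      rw [hevr] at h1
      exact eq_inv_of_mul_eq_one_right h1
    have hwr : w.1 ((r : L)⁻¹) = (r : ℝ)⁻¹ := by
      rw [map_inv₀]
      congr 1
      change w (r : L) = r
      have h1 : w ((r : ℕ) : L) = ‖((r : ℕ) : ℂ)‖ := by
        rw [← w.norm_embedding_eq, map_natCast]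
      rw [h1, Complex.norm_natCast]
    have hinvt : ev Φ t⁻¹ = (ev Φ t)⁻¹ := by
      have h1 : ev Φ t * ev Φ t⁻¹ = 1 := by
        rw [← ev_mul Φ ht ht', mul_inv_cancel₀ ht0, ev_of_mem Φ O.one_mem]
        exact map_one Φ
      exact eq_inv_of_mul_eq_one_right h1
    have hu : ∀ b : Bool, w.1 (ev Φ (if b then t * (r : F)⁻¹ else t⁻¹ * (r : F)⁻¹)) ≤ 1 := by
      intro b
      have hrpos : (0 : ℝ) < r := by linarith
      cases b
      · change w.1 (ev Φ (t⁻¹ * (r : F)⁻¹)) ≤ 1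
        rw [ev_mul Φ ht' hrO.2, map_mul, hevri, hwr, hinvt, ← div_eq_mul_inv,
          div_le_one hrpos]
        exact hw2.trans hRr
      · change w.1 (ev Φ (t * (r : F)⁻¹)) ≤ 1
        rw [ev_mul Φ ht hrO.2, map_mul, hevri, hwr, ← div_eq_mul_inv, div_le_one hrpos]
        exact hw1.trans hRr
    have hSn : 0 ≤ (⨆ s : S, w.1 (ev Φ (algebraMap B F s))) := sup_nonneg _ fun _ => w.1.nonneg _
    have h1 := hb₃ L O Φ hk (fun b => by
        cases b
        · exact O.mul_mem _ _ ht' hrO.2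
        · exact O.mul_mem _ _ ht hrO.2)
      (fun j => O.mul_mem _ _ (hgO j.1) (hBO _)) hfO w.1 hu
      ((⨆ i, w.1 (ev Φ (algebraMap K F (q i)))) * (⨆ i, w.1 (ev Φ (algebraMap K F (q' i)))) *
        (⨆ s : S, w.1 (ev Φ (algebraMap B F s)))) C₃
      (mul_nonneg (hnn w.1) hSn)
      (fun j => by
        change w.1 (ev Φ (algebraMap K F (q j.1.1) * algebraMap K F (q' j.1.2) *
          algebraMap B F j.2)) ≤ _
        rw [ev_mul Φ (hgO j.1) (hBO _), map_mul]
        exact mul_le_mul (mul_le_sup Φ w.1 (fun i => algebraMap K F (q i))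
          (fun i => algebraMap K F (q' i)) hq hq' j.1.1 j.1.2)
          (le_sup (fun s : S => w.1 (ev Φ (algebraMap B F s))) j.2) (w.1.nonneg _) (hnn w.1)) hC₃
      (fun c hc => (hcst₃ L (evk Φ hk) c hc).2.2 w)
    refine (tuple_bound Φ w.1 G (fun i => algebraMap K F (p i)) (fun i => algebraMap K F (p' i))
      hGO hp hp' (fun i i' => ((h1 (i, i')).1))).trans ?_
    exact mul_le_mul_of_nonneg_right hH3 (mul_nonneg (hnn w.1) hSn)

end Pool.Agent.KS6_77.VJ
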