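import Pool.Agent.KS6_77.VJ.Glue
import Pool.Agent.KS6_77.VJ.StO
import Pool.Agent.KS6_77.TrBasis
import Pool.Agent.KS6_16.VJ.Defs3

/-!
# Existence of the tuples
-/

namespace Pool.Agent.KS6_77.VJ

open IsDedekindDomain KS6_16.VJ

variable {k K : Type} [Field k] [CharZero k] [Field K] [Algebra k K]

theorem exists_der (hK : CF k K) (f : K) (hf : Transcendental k f) :
    ∃ D : Derivation k K K, D ≠ 0 := by
  obtain ⟨B, hB⟩ := exists_kaehler_basis (hK.basis f hf)
  refine ⟨(B.coord ()).compDer (KaehlerDifferential.D k K), fun h0 => ?_⟩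
  have h1 : ((B.coord ()).compDer (KaehlerDifferential.D k K)) f = 1 := by
    change B.coord () (KaehlerDifferential.D k K f) = 1
    have h2 := hB ()
    rw [← h2, Module.Basis.coord_apply, Module.Basis.repr_self, Finsupp.single_eq_same]
  rw [h0] at h1
  exact zero_ne_one h1

/-- Generators of the ring of functions without poles at the places where `f` is regular. -/
theorem top_der (hK : CF k K) (f : K) (hf : Transcendental k f) (S : Finset K)
    (hS1 : ∀ x ∈ S, IsIntegral (Algebra.adjoin k {f}) x)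
    (hS2 : ∀ y : K, IsIntegral (Algebra.adjoin k {f}) y → y ∈ Algebra.adjoin k (S : Set K))
    {D : Derivation k K K} (hD : D ≠ 0) {P : ValuationSubring K} (hP : IsPlace k P)
    (hfP : f ∈ P) {z : K} (hz : Unif P z) :
    ∃ s ∈ S, P.valuation (D s) = P.valuation (D z) ∧
      ∀ s' ∈ S, P.valuation (D s') ≤ P.valuation (D z) := by
  have := model_dedekind hK f hf
  have := model_frac hK f hf
  have hSP : ∀ y ∈ (S : Set K), y ∈ P := fun y hy =>
    integral_mem hP.1 (S := {f}) (by rintro x rfl; exact hfP) (hS1 y hy)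
  have hle : ∀ s ∈ S, P.valuation (D s) ≤ P.valuation (D z) := fun s hs =>
    der_le hK hP D hz (hSP s hs)
  have hDz : 0 < P.valuation (D z) := val_pos (der_unif_ne hK hP hD hz)
  by_contra hcon
  push Not at hcon
  have hlt : ∀ s ∈ S, P.valuation (D s) < P.valuation (D z) := by
    intro s hs
    refine lt_of_le_of_ne (hle s hs) fun h => ?_
    obtain ⟨s', hs', hs''⟩ := hcon s hs h
    exact absurd (hle s' hs') (not_le_of_gt hs'')
  have hadj : ∀ y ∈ Algebra.adjoin k (S : Set K), P.valuation (D y) < P.valuation (D z) := by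
    intro y hy
    induction hy using Algebra.adjoin_induction with
    | mem y hy => exact hlt y hy
    | algebraMap a => rw [D.map_algebraMap, map_zero]; exact hDz
    | add y y' _ _ hy hy' => rw [map_add]; exact Valuation.map_add_lt _ hy hy'
    | mul y y' hym hym' hy hy' =>
      rw [D.leibniz, smul_eq_mul, smul_eq_mul]
      refine Valuation.map_add_lt _ ?_ ?_
      · rw [map_mul]
        exact lt_of_le_of_lt (mul_le_of_le_one_left'
          (val_le_one_iff.mpr (adjoin_mem hP.1 hSP hym))) hy'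
      · rw [map_mul]
        exact lt_of_le_of_lt (mul_le_of_le_one_left'
          (val_le_one_iff.mpr (adjoin_mem hP.1 hSP hym'))) hy
  have hzP : z ∈ P := val_le_one_iff.mp (unif_lt_one hz).le
  obtain ⟨b, c, hb, hc⟩ := dn_of_dedekind (A := integralClosure (Algebra.adjoin k {f}) K)
    (F := K) P (fun a => integral_mem hP.1 (S := {f}) (by rintro x rfl; exact hfP)
      (show IsIntegral (Algebra.adjoin k {f}) (a : K) from a.2)) z hzP
  change P.valuation (b : K) = 1 at hb
  change (b : K) * z = (c : K) at hc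
  have h1 : D (c : K) = (b : K) * D z + z * D (b : K) := by
    rw [← hc, D.leibniz, smul_eq_mul, smul_eq_mul]
  have h2 : (b : K) * D z = D (c : K) - z * D (b : K) := by rw [h1]; ring
  have h3 : P.valuation ((b : K) * D z) < P.valuation (D z) := by
    rw [h2]
    refine Valuation.map_sub_lt _ (hadj _ (hS2 _ c.2)) ?_
    rw [map_mul]
    exact lt_of_le_of_lt (mul_le_of_le_one_left' (val_le_one_iff.mpr hzP)) (hadj _ (hS2 _ b.2))
  rw [map_mul, hb, one_mul] at h3
  exact lt_irrefl _ h3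

/-- The tuple of the elements of a finite set. -/
noncomputable def tup {A : Type} (S : Finset A) (g : A → K) : Fin S.card → K :=
  fun i => g (S.equivFin.symm i)

lemma tup_mem {A : Type} (S : Finset A) (g : A → K) {s : A} (hs : s ∈ S) :
    ∃ i, tup S g i = g s := by
  refine ⟨S.equivFin ⟨s, hs⟩, ?_⟩
  unfold tup
  rw [Equiv.symm_apply_apply]

lemma tup_mem' {A : Type} (S : Finset A) (g : A → K) (i : Fin S.card) :
    ∃ s ∈ S, tup S g i = g s := ⟨_, (S.equivFin.symm i).2, rfl⟩

theorem exists_repCan (hK : CF k K) (f : K) (hf : Transcendental k f) (D : Derivation k K K)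
    (hD : D ≠ 0) : ∃ (n m : ℕ) (p : Fin n → K) (q : Fin m → K), RepCan k D p q := by
  have hfi : Transcendental k f⁻¹ := fun h => hf (by
    have := h.inv
    rwa [inv_inv] at this)
  obtain ⟨S, hS1, hS2⟩ := model_ft hK f hf
  obtain ⟨S', hS1', hS2'⟩ := model_ft hK f⁻¹ hfi
  have key : ∀ P : ValuationSubring K, IsPlace k P → f ∈ P → ∀ z : K, Unif P z →
      ∃ i, IsTop P (tup S (fun s => D s)) i ∧
        P.valuation (tup S (fun s => D s) i) = P.valuation (D z) := by
    intro P hP hfP z hz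
    obtain ⟨s, hs, hs1, hs2⟩ := top_der hK f hf S hS1 hS2 hD hP hfP hz
    obtain ⟨i, hi⟩ := tup_mem S (fun s => D s) hs
    refine ⟨i, ⟨?_, fun i' => ?_⟩, by rw [hi]; exact hs1⟩
    · rw [hi]
      intro h0
      rw [h0, map_zero] at hs1
      exact absurd hs1.symm (val_pos (der_unif_ne hK hP hD hz)).ne'
    · obtain ⟨s', hs', hi'⟩ := tup_mem' S (fun s => D s) i'
      rw [hi, hi', hs1]
      exact hs2 s' hs'
  have key' : ∀ P : ValuationSubring K, IsPlace k P → f⁻¹ ∈ P → ∀ z : K, Unif P z →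
      ∃ i, IsTop P (tup S' (fun s => D s)) i ∧
        P.valuation (tup S' (fun s => D s) i) = P.valuation (D z) := by
    intro P hP hfP z hz
    obtain ⟨s, hs, hs1, hs2⟩ := top_der hK f⁻¹ hfi S' hS1' hS2' hD hP hfP hz
    obtain ⟨i, hi⟩ := tup_mem S' (fun s => D s) hs
    refine ⟨i, ⟨?_, fun i' => ?_⟩, by rw [hi]; exact hs1⟩
    · rw [hi]
      intro h0
      rw [h0, map_zero] at hs1
      exact absurd hs1.symm (val_pos (der_unif_ne hK hP hD hz)).ne'
    · obtain ⟨s', hs', hi'⟩ := tup_mem' S' (fun s => D s) i'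
      rw [hi, hi', hs1]
      exact hs2 s' hs'
  have ha : ∃ i, tup S (fun s => D s) i ≠ 0 := by
    obtain ⟨P, hP, hfP⟩ := exists_place_lt f hf
    obtain ⟨z, -, hz, -⟩ := exists_unif hK hP
    obtain ⟨i, hi, -⟩ := key P hP (val_le_one_iff.mp hfP.le) z hz
    exact ⟨i, hi.1⟩
  have hb : ∃ i, tup S' (fun s => D s) i ≠ 0 := by
    obtain ⟨P, hP, hfP⟩ := exists_place_lt f⁻¹ hfi
    obtain ⟨z, -, hz, -⟩ := exists_unif hK hP
    obtain ⟨i, hi, -⟩ := key' P hP (val_le_one_iff.mp hfP.le) z hz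
    exact ⟨i, hi.1⟩
  obtain ⟨p, q, hpq⟩ := glue hK f hf _ _ ha hb
  exact ⟨_, _, p, q, fun P hP z hz => hpq P hP (D z) (fun h => key P hP h z hz)
    (fun h => key' P hP h z hz)⟩

section ideal

variable {A : Type} [CommRing A] [IsDedekindDomain A] [Algebra A K] [IsFractionRing A K]

omit [CharZero k] in
/-- Separation of two places. -/
theorem exists_sep {P P' : ValuationSubring K} (hP : IsPlace k P) (hP' : IsPlace k P')
    (hA : ∀ a : A, algebraMap A K a ∈ P) (hA' : ∀ a : A, algebraMap A K a ∈ P')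
    (hne : P' ≠ P) : ∃ y : A, P'.valuation (algebraMap A K y) < 1 ∧
      P.valuation (algebraMap A K y) = 1 := by
  obtain ⟨v, hv, hmem⟩ := exists_center (A := A) P hA hP.2
  obtain ⟨v', hv', hmem'⟩ := exists_center (A := A) P' hA' hP'.2
  have hvv : v' ≠ v := by
    rintro rfl
    exact hne (by rw [hv, hv'])
  obtain ⟨y, hy', hy⟩ : ∃ y ∈ v'.asIdeal, y ∉ v.asIdeal := by
    by_contra hcon
    push Not at hcon
    exact hvv (HeightOneSpectrum.ext (v'.isMaximal.eq_of_le v.isPrime.ne_top hcon))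
  refine ⟨y, (hmem' y).mp hy', le_antisymm (val_le_one_iff.mpr (hA y)) (not_lt.mp ?_)⟩
  rw [← hmem]
  exact hy

lemma prod_lt_one {P : ValuationSubring K} {ι : Type*} (s : Finset ι) (x : ι → K)
    (h1 : ∀ i ∈ s, P.valuation (x i) ≤ 1) {i : ι} (hi : i ∈ s) (h : P.valuation (x i) < 1) :
    P.valuation (∏ i ∈ s, x i) < 1 := by
  classical
  rw [← Finset.mul_prod_erase s x hi, map_mul]
  refine mul_lt_one_of_lt_of_le h ?_
  rw [map_prod]
  exact Finset.prod_le_one' fun j hj => h1 j (Finset.mem_of_mem_erase hj)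

omit [CharZero k] in
/-- An ideal with prescribed orders at the places of `𝒟`. -/
theorem exists_ideal_gens (𝒟 : Set (ValuationSubring K)) (h𝒟 : 𝒟.Finite)
    (h𝒟P : ∀ P ∈ 𝒟, IsPlace k P ∧ ∀ a : A, algebraMap A K a ∈ P) :
    ∃ S : Finset A, ∀ P : ValuationSubring K, IsPlace k P → (∀ a : A, algebraMap A K a ∈ P) →
      (P ∈ 𝒟 → ∀ z : K, Unif P z →
        (∀ s ∈ S, P.valuation (algebraMap A K s) ≤ P.valuation z) ∧
        ∃ s ∈ S, P.valuation (algebraMap A K s) = P.valuation z) ∧
      (P ∉ 𝒟 → ∃ s ∈ S, P.valuation (algebraMap A K s) = 1) := by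
  classical
  let I : Ideal A :=
    { carrier := {x | ∀ P ∈ 𝒟, P.valuation (algebraMap A K x) < 1}
      add_mem' := by
        intro x y hx hy P hP
        rw [map_add]
        exact Valuation.map_add_lt _ (hx P hP) (hy P hP)
      zero_mem' := by
        intro P _
        rw [map_zero, map_zero]
        exact zero_lt_one
      smul_mem' := by
        intro c x hx P hP
        rw [smul_eq_mul, map_mul, map_mul]
        exact lt_of_le_of_lt (mul_le_of_le_one_left'
          (val_le_one_iff.mpr ((h𝒟P P hP).2 c))) (hx P hP) }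
  obtain ⟨S, hS⟩ : I.FG := IsNoetherian.noetherian I
  have hSI : ∀ s ∈ S, s ∈ I := fun s hs => hS ▸ Submodule.subset_span hs
  have hmax : ∀ P : ValuationSubring K, (∀ a : A, algebraMap A K a ∈ P) →
      ∀ x ∈ I, algebraMap A K x ≠ 0 →
        ∃ s ∈ S, P.valuation (algebraMap A K x) ≤ P.valuation (algebraMap A K s) := by
    intro P hAP x hx hx0
    by_contra hcon
    push Not at hcon
    have h1 : P.valuation (algebraMap A K x) < P.valuation (algebraMap A K x) := by
      have hxS : x ∈ Submodule.span A (S : Set A) := by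
        have h2 : x ∈ Ideal.span (S : Set A) := by rw [hS]; exact hx
        exact h2
      refine Submodule.span_induction (p := fun y _ =>
        P.valuation (algebraMap A K y) < P.valuation (algebraMap A K x)) ?_ ?_ ?_ ?_ hxS
      · exact fun y hy => hcon y hy
      · rw [map_zero, map_zero]
        exact val_pos hx0
      · intro y y' _ _ hy hy'
        rw [map_add]
        exact Valuation.map_add_lt _ hy hy'
      · intro a y _ hy
        rw [smul_eq_mul, map_mul, map_mul]
        exact lt_of_le_of_lt (mul_le_of_le_one_left' (val_le_one_iff.mpr (hAP a))) hy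
    exact lt_irrefl _ h1
  -- separating elements
  have hsep : ∀ P : ValuationSubring K, IsPlace k P → (∀ a : A, algebraMap A K a ∈ P) →
      ∀ s : Finset (ValuationSubring K), (∀ P' ∈ s, P' ∈ 𝒟) → P ∉ s →
      ∃ y : A, P.valuation (algebraMap A K y) = 1 ∧
        ∀ P' ∈ s, P'.valuation (algebraMap A K y) < 1 := by
    intro P hP hAP s hs hPs
    have h1 : ∀ P' : s, ∃ y : A, (P' : ValuationSubring K).valuation (algebraMap A K y) < 1 ∧
        P.valuation (algebraMap A K y) = 1 := by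
      rintro ⟨P', hP'⟩
      obtain ⟨h2, h3⟩ := h𝒟P P' (hs P' hP')
      exact exists_sep hP h2 hAP h3 (by
        rintro rfl
        exact hPs hP')
    choose y hy1 hy2 using h1
    refine ⟨∏ P' : s, y P', ?_, ?_⟩
    · rw [map_prod, map_prod]
      exact Finset.prod_eq_one fun P' _ => hy2 P'
    · intro P' hP'
      rw [map_prod]
      refine prod_lt_one (P := P') Finset.univ (fun P'' : s => algebraMap A K (y P'')) ?_
        (i := ⟨P', hP'⟩) (Finset.mem_univ _) (hy1 ⟨P', hP'⟩)
      intro P'' _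
      exact val_le_one_iff.mpr ((h𝒟P P' (hs P' hP')).2 _)
  refine ⟨S, fun P hP hAP => ⟨fun hPD z hz => ⟨fun s hs => ?_, ?_⟩, fun hPD => ?_⟩⟩
  · exact (hz _).mp (hSI s hs P hPD)
  · obtain ⟨y, hy1, hy2⟩ := hsep P hP hAP (h𝒟.toFinset.erase P)
      (fun P' hP' => (Set.Finite.mem_toFinset h𝒟).mp (Finset.mem_of_mem_erase hP'))
      (Finset.notMem_erase P _)
    obtain ⟨b, c, hb, hc⟩ := dn_of_dedekind (A := A) (F := K) P hAP z
      (val_le_one_iff.mp (unif_lt_one hz).le)
    have hcz : P.valuation (algebraMap A K c) = P.valuation z := by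
      rw [← hc, map_mul, hb, one_mul]
    have hx : c * y ∈ I := by
      intro P' hP'
      rw [map_mul, map_mul]
      by_cases hPP : P' = P
      · subst hPP
        rw [hy1, mul_one, hcz]
        exact unif_lt_one hz
      · rw [mul_comm]
        refine mul_lt_one_of_lt_of_le (hy2 P' ?_) (val_le_one_iff.mpr ((h𝒟P P' hP').2 _))
        rw [Finset.mem_erase, Set.Finite.mem_toFinset]
        exact ⟨hPP, hP'⟩
    have hxv : P.valuation (algebraMap A K (c * y)) = P.valuation z := by
      rw [map_mul, map_mul, hy1, mul_one, hcz]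
    have hx0 : algebraMap A K (c * y) ≠ 0 := by
      intro h0
      rw [h0, map_zero] at hxv
      exact absurd hxv.symm (val_pos (unif_ne_zero hP.2 hz)).ne'
    obtain ⟨s, hs, hs1⟩ := hmax P hAP _ hx hx0
    refine ⟨s, hs, le_antisymm ((hz _).mp (hSI s hs P hPD)) ?_⟩
    rw [← hxv]
    exact hs1
  · obtain ⟨y, hy1, hy2⟩ := hsep P hP hAP h𝒟.toFinset
      (fun P' hP' => (Set.Finite.mem_toFinset h𝒟).mp hP')
      (fun h => hPD ((Set.Finite.mem_toFinset h𝒟).mp h))
    have hx : y ∈ I := fun P' hP' => hy2 P' ((Set.Finite.mem_toFinset h𝒟).mpr hP')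
    have hx0 : algebraMap A K y ≠ 0 := by
      intro h0
      rw [h0, map_zero] at hy1
      exact zero_ne_one hy1
    obtain ⟨s, hs, hs1⟩ := hmax P hAP _ hx hx0
    refine ⟨s, hs, le_antisymm (val_le_one_iff.mpr (hAP s)) ?_⟩
    rw [← hy1]
    exact hs1

end ideal

theorem exists_repDiv (hK : CF k K) (f : K) (hf : Transcendental k f)
    (𝒟 : Set (ValuationSubring K)) (h𝒟 : 𝒟.Finite) (h𝒟P : ∀ P ∈ 𝒟, IsPlace k P) :
    ∃ (n m : ℕ) (p : Fin n → K) (q : Fin m → K), RepDiv k 𝒟 p q := by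
  classical
  have hfi : Transcendental k f⁻¹ := fun h => hf (by
    have := h.inv
    rwa [inv_inv] at this)
  -- the two models
  have hmod : ∀ g : K, Transcendental k g → ∃ (n : ℕ) (a : Fin n → K), (∃ i, a i ≠ 0) ∧
      ∀ P : ValuationSubring K, IsPlace k P → g ∈ P → ∀ c : K,
        ((P ∈ 𝒟 ∧ Unif P c) ∨ (P ∉ 𝒟 ∧ c = 1)) →
        ∃ i, IsTop P a i ∧ P.valuation (a i) = P.valuation c := by
    intro g hg
    have := model_dedekind hK g hg
    have := model_frac hK g hg
    let A := integralClosure (Algebra.adjoin k {g}) K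
    have hAP : ∀ P : ValuationSubring K, IsPlace k P → g ∈ P → ∀ a : A, algebraMap A K a ∈ P :=
      fun P hP hgP a => integral_mem hP.1 (S := {g}) (by rintro x rfl; exact hgP)
        (show IsIntegral (Algebra.adjoin k {g}) (a : K) from a.2)
    have hgA : ∀ P : ValuationSubring K, (∀ a : A, algebraMap A K a ∈ P) → g ∈ P := by
      intro P h
      have h1 : IsIntegral (Algebra.adjoin k {g}) g := by
        have h2 : g = algebraMap (Algebra.adjoin k {g}) K
          ⟨g, Algebra.subset_adjoin (Set.mem_singleton g)⟩ := rfl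
        rw [h2]
        exact isIntegral_algebraMap
      exact h ⟨g, h1⟩
    obtain ⟨S, hS⟩ := exists_ideal_gens (k := k) (A := A) (K := K) {P ∈ 𝒟 | g ∈ P}
      (h𝒟.subset (Set.sep_subset _ _)) (fun P hP => ⟨h𝒟P P hP.1, hAP P (h𝒟P P hP.1) hP.2⟩)
    have key : ∀ P : ValuationSubring K, IsPlace k P → g ∈ P → ∀ c : K,
        ((P ∈ 𝒟 ∧ Unif P c) ∨ (P ∉ 𝒟 ∧ c = 1)) →
        ∃ i, IsTop P (tup S (algebraMap A K)) i ∧
          P.valuation (tup S (algebraMap A K) i) = P.valuation c := by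
      intro P hP hgP c hc
      have hc0 : c ≠ 0 := by
        rcases hc with ⟨-, hc⟩ | ⟨-, hc⟩
        · exact unif_ne_zero hP.2 hc
        · rw [hc]; exact one_ne_zero
      have h1 : (∀ s ∈ S, P.valuation (algebraMap A K s) ≤ P.valuation c) ∧
          ∃ s ∈ S, P.valuation (algebraMap A K s) = P.valuation c := by
        rcases hc with ⟨hPD, hc⟩ | ⟨hPD, hc⟩
        · exact (hS P hP (hAP P hP hgP)).1 ⟨hPD, hgP⟩ c hc
        · rw [hc, map_one]
          exact ⟨fun s _ => val_le_one_iff.mpr (hAP P hP hgP s),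
            (hS P hP (hAP P hP hgP)).2 (fun h => hPD h.1)⟩
      obtain ⟨h1, s, hs, hs1⟩ := h1
      obtain ⟨i, hi⟩ := tup_mem S (algebraMap A K) hs
      refine ⟨i, ⟨?_, fun i' => ?_⟩, by rw [hi]; exact hs1⟩
      · rw [hi]
        intro h0
        rw [h0, map_zero] at hs1
        exact absurd hs1.symm (val_pos hc0).ne'
      · obtain ⟨s', hs', hi'⟩ := tup_mem' S (algebraMap A K) i'
        rw [hi, hi', hs1]
        exact h1 s' hs'
    refine ⟨_, tup S (algebraMap A K), ?_, key⟩
    obtain ⟨P, hP, hgP⟩ := exists_place_lt g hg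
    by_cases hPD : P ∈ 𝒟
    · obtain ⟨z, -, hz, -⟩ := exists_unif hK hP
      obtain ⟨i, hi, -⟩ := key P hP (val_le_one_iff.mp hgP.le) z (Or.inl ⟨hPD, hz⟩)
      exact ⟨i, hi.1⟩
    · obtain ⟨i, hi, -⟩ := key P hP (val_le_one_iff.mp hgP.le) 1 (Or.inr ⟨hPD, rfl⟩)
      exact ⟨i, hi.1⟩
  obtain ⟨n, a, ha, hkey⟩ := hmod f hf
  obtain ⟨m, b, hb, hkey'⟩ := hmod f⁻¹ hfi
  obtain ⟨p, q, hpq⟩ := glue hK f hf a b ha hb
  refine ⟨_, _, q, p, fun P hP => ⟨fun hPD z hz => ?_, fun hPD => ?_⟩⟩
  · obtain ⟨i, j, hi, hj, hij⟩ := hpq P hP z (fun h => hkey P hP h z (Or.inl ⟨hPD, hz⟩))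
      (fun h => hkey' P hP h z (Or.inl ⟨hPD, hz⟩))
    exact ⟨j, i, hj, hi, by rw [← hij, mul_comm]⟩
  · obtain ⟨i, j, hi, hj, hij⟩ := hpq P hP 1 (fun h => hkey P hP h 1 (Or.inr ⟨hPD, rfl⟩))
      (fun h => hkey' P hP h 1 (Or.inr ⟨hPD, rfl⟩))
    exact ⟨j, i, hj, hi, by rw [← hij, mul_one]⟩

theorem stEX : StEX := by
  intro k K _ _ _ _ hfun
  obtain ⟨f, hf, hfin⟩ := hfun
  have hK : CF k K := CF.of_gen f hf hfin
  exact ⟨fun D hD => exists_repCan hK f hf D hD,
    fun 𝒟 h𝒟 h𝒟P => exists_repDiv hK f hf 𝒟 h𝒟 h𝒟P, exists_der hK f hf⟩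

end Pool.Agent.KS6_77.VJ
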