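import Pool.Agent.KS6_77.VJ.CF
import Pool.Agent.KS6_16.VJ.Defs

/-!
# The integral closure of `k[t, 1/t]`
-/

namespace Pool.Agent.KS6_77.VJ

open scoped LaurentPolynomial nonZeroDivisors

theorem laurent_isDedekind (k : Type) [Field k] : IsDedekindDomain k[T;T⁻¹] :=
  IsLocalization.isDedekindDomain (Polynomial k)
    (M := Submonoid.powers (Polynomial.X : Polynomial k))
    (powers_le_nonZeroDivisors_of_noZeroDivisors Polynomial.X_ne_zero) k[T;T⁻¹]

theorem laurent_injective {k F : Type} [Field k] [Field F] [Algebra k F] (t : Fˣ)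
    (ht : Transcendental k (t : F)) :
    Function.Injective (LaurentPolynomial.eval₂ (algebraMap k F) t) := by
  rw [injective_iff_map_eq_zero]
  intro p hp
  obtain ⟨n, q, hq⟩ := p.exists_T_pow
  have h1 : LaurentPolynomial.eval₂ (algebraMap k F) t (Polynomial.toLaurent q) = 0 := by
    rw [hq, map_mul, hp, zero_mul]
  rw [LaurentPolynomial.eval₂_toLaurent] at h1
  have h2 : q = 0 := by
    rw [transcendental_iff_injective] at ht
    apply ht
    rw [map_zero]
    exact h1
  rw [h2, map_zero] at hq
  have h3 : IsUnit (LaurentPolynomial.T (n : ℤ) : k[T;T⁻¹]) := LaurentPolynomial.isUnit_T _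
  exact (h3.mul_left_eq_zero).mp hq.symm

theorem stFin : KS6_16.VJ.StFin := by
  intro k K F _ _ _ _ _ _ _ _ _ f hf hfin t ht
  have hCF : CF k F := (CF.of_gen f hf hfin).ext (K := K)
  have ht0 : t ≠ 0 := by
    rintro rfl
    exact ht isAlgebraic_zero
  let tu : Fˣ := Units.mk0 t ht0
  let ψ : k[T;T⁻¹] →+* F := LaurentPolynomial.eval₂ (algebraMap k F) tu
  have hψ : Function.Injective ψ := laurent_injective tu ht
  let _ : Algebra k[T;T⁻¹] F := ψ.toAlgebra
  have hded := laurent_isDedekind k
  have hfs : FaithfulSMul k[T;T⁻¹] F := (faithfulSMul_iff_algebraMap_injective _ _).mpr hψ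
  have hψT : ψ (LaurentPolynomial.T 1) = t := by
    have h1 := LaurentPolynomial.eval₂_toLaurent (algebraMap k F) tu Polynomial.X
    rw [Polynomial.toLaurent_X, Polynomial.eval₂_X] at h1
    exact h1
  have hψC : ∀ a : k, ψ (LaurentPolynomial.C a) = algebraMap k F a := by
    intro a
    have h1 := LaurentPolynomial.eval₂_toLaurent (algebraMap k F) tu (Polynomial.C a)
    rw [Polynomial.toLaurent_C, Polynomial.eval₂_C] at h1
    exact h1
  have htow : IsScalarTower k k[T;T⁻¹] F := IsScalarTower.of_algebraMap_eq fun a => by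
    rw [← hψC a]
    rfl
  let K' := FractionRing k[T;T⁻¹]
  let _ : Algebra K' F := FractionRing.liftAlgebra k[T;T⁻¹] F
  have : IsScalarTower k[T;T⁻¹] K' F := FractionRing.isScalarTower_liftAlgebra k[T;T⁻¹] F
  have : IsScalarTower k K' F := IsScalarTower.of_algebraMap_eq fun a => by
    rw [IsScalarTower.algebraMap_apply k k[T;T⁻¹] F, IsScalarTower.algebraMap_apply k k[T;T⁻¹] K',
      ← IsScalarTower.algebraMap_apply k[T;T⁻¹] K' F]
  have htr := trdeg_add_eq k K' (A := F)
  rw [hCF.tr] at htr
  have h1 : Algebra.trdeg k K' ≠ 0 := by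
    rw [Ne, trdeg_eq_zero_iff]
    intro halg
    have h2 : IsAlgebraic k (algebraMap k[T;T⁻¹] K' (LaurentPolynomial.T 1)) :=
      halg.isAlgebraic _
    have h3 : IsAlgebraic k (algebraMap K' F (algebraMap k[T;T⁻¹] K' (LaurentPolynomial.T 1))) :=
      h2.algebraMap
    rw [← IsScalarTower.algebraMap_apply] at h3
    apply ht
    have h4 : algebraMap k[T;T⁻¹] F (LaurentPolynomial.T 1) = t := hψT
    rwa [h4] at h3
  have h5 : Algebra.trdeg K' F = 0 := by
    by_contra h6
    have h7 : (1 : Cardinal) ≤ Algebra.trdeg k K' := Cardinal.one_le_iff_ne_zero.mpr h1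
    have h8 : (1 : Cardinal) ≤ Algebra.trdeg K' F := Cardinal.one_le_iff_ne_zero.mpr h6
    have h9 := add_le_add h7 h8
    rw [htr] at h9
    norm_num at h9
  have hess := hCF.ess
  have h10 : Algebra.EssFiniteType K' F := .of_comp k K' F
  have h11 : Algebra.IsAlgebraic K' F := trdeg_eq_zero_iff.mp h5
  have h12 : FiniteDimensional K' F := Algebra.finite_of_essFiniteType_of_isAlgebraic
  have h13 : CharZero K' := charZero_of_injective_algebraMap (algebraMap k K').injective
  refine ⟨integralClosure k[T;T⁻¹] F, inferInstance, inferInstance, inferInstance,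
    IsIntegralClosure.finite k[T;T⁻¹] K' F _, inferInstance, inferInstance,
    integralClosure.isFractionRing_of_finite_extension K' F, ?_, ?_⟩
  · exact hψT
  · exact hψC

end Pool.Agent.KS6_77.VJ
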