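import Pool.Agent.KS6_77.VJ.Der
import Pool.Agent.KS6_16.VJ.Defs2

/-!
# Tuples with prescribed orders: gluing
-/

namespace Pool.Agent.KS6_77.VJ

open KS6_16.VJ

variable {k K : Type} [Field k] [Field K] [Algebra k K]

/-- Growth of functions at the poles of `f`. -/
theorem growth (hK : CF k K) (f : K) (hf : Transcendental k f) (a : K) : ∃ E : ℕ,
    ∀ P : ValuationSubring K, (∀ c : k, algebraMap k K c ∈ P) → 1 < P.valuation f →
      P.valuation a ≤ P.valuation f ^ E := by
  have hfi : Transcendental k f⁻¹ := fun h => hf (by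
    have := h.inv
    rwa [inv_inv] at this)
  have hf0 : f ≠ 0 := by
    rintro rfl
    exact hf isAlgebraic_zero
  have halg := hK.alg f⁻¹ hfi
  have h1 : IsAlgebraic (Algebra.adjoin k {f⁻¹}) a := by
    rw [← IntermediateField.isAlgebraic_adjoin_iff]
    exact halg.isAlgebraic a
  obtain ⟨c, hc0, hc⟩ := h1.exists_integral_multiple
  have hcm : (c : K) ∈ (Polynomial.aeval f⁻¹ : Polynomial k →ₐ[k] K).range := by
    rw [← Algebra.adjoin_singleton_eq_range_aeval]
    exact c.2
  obtain ⟨q, hq⟩ := hcm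
  have hq' : Polynomial.aeval f⁻¹ q = (c : K) := hq
  have hq0 : q ≠ 0 := by
    rintro rfl
    rw [map_zero] at hq'
    exact hc0 (Subtype.ext hq'.symm)
  obtain ⟨r, hr⟩ : Polynomial.X ^ q.natTrailingDegree ∣ q := by
    rw [Polynomial.X_pow_dvd_iff]
    intro d hd
    exact Polynomial.coeff_eq_zero_of_lt_natTrailingDegree hd
  set m := q.natTrailingDegree with hm
  have hr0 : r.coeff 0 ≠ 0 := by
    have h2 : q.coeff m ≠ 0 := by
      rw [hm, Polynomial.coeff_natTrailingDegree_ne_zero]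
      exact hq0
    rw [hr, Polynomial.coeff_X_pow_mul' ] at h2
    simpa using h2
  refine ⟨m, fun P hP hPf => ?_⟩
  have hfi1 : P.valuation f⁻¹ < 1 := by
    rw [map_inv₀]
    exact (inv_lt_one₀ (val_pos hf0)).mpr hPf
  have hfiP : f⁻¹ ∈ P := val_le_one_iff.mp hfi1.le
  have h3 : P.valuation (Polynomial.aeval f⁻¹ r) = 1 := by
    obtain ⟨r', hr'⟩ : Polynomial.X ∣ r - Polynomial.C (r.coeff 0) := by
      rw [Polynomial.X_dvd_iff]
      simp
    have h4 : r = Polynomial.X * r' + Polynomial.C (r.coeff 0) := by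
      rw [← hr']
      ring
    rw [h4, map_add, map_mul, Polynomial.aeval_X, Polynomial.aeval_C]
    rw [Valuation.map_add_eq_of_lt_right]
    · exact const_val hP hr0
    · rw [const_val hP hr0, map_mul]
      exact mul_lt_one_of_lt_of_le hfi1 (val_le_one_iff.mpr (poly_mem hP hfiP _))
  have h5 : P.valuation (c : K) = P.valuation f⁻¹ ^ m := by
    rw [← hq', hr, map_mul, map_pow, Polynomial.aeval_X, map_mul, h3, mul_one, map_pow]
  have h6 : P.valuation ((c : K) * a) ≤ 1 := by
    rw [val_le_one_iff]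
    have h7 : IsIntegral (Algebra.adjoin k {f⁻¹}) ((c : K) * a) := hc
    exact integral_mem hP (S := {f⁻¹}) (by rintro x rfl; exact hfiP) h7
  rw [map_mul, h5, map_inv₀, inv_pow] at h6
  have h8 : 0 < P.valuation f ^ m := pow_pos (val_pos hf0) m
  calc P.valuation a = P.valuation f ^ m * ((P.valuation f ^ m)⁻¹ * P.valuation a) := by
        rw [mul_inv_cancel_left₀ h8.ne']
    _ ≤ P.valuation f ^ m * 1 := mul_le_mul_right h6 _
    _ = _ := mul_one _

/-- A common exponent for two tuples. -/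
theorem growth_tuple (hK : CF k K) (f : K) (hf : Transcendental k f) {n m : ℕ} (a : Fin n → K)
    (b : Fin m → K) (hb : ∃ j, b j ≠ 0) : ∃ E : ℕ, ∀ P : ValuationSubring K,
      (∀ c : k, algebraMap k K c ∈ P) → 1 < P.valuation f → ∀ M, E ≤ M →
      ∀ i, ∃ j, P.valuation (a i) ≤ P.valuation f ^ M * P.valuation (b j) := by
  obtain ⟨j, hj⟩ := hb
  choose E hE using fun i => growth hK f hf (a i / b j)
  refine ⟨∑ i, E i, fun P hP hPf M hM i => ⟨j, ?_⟩⟩
  have h1 := hE i P hP hPf
  rw [map_div₀, div_le_iff₀ (val_pos hj)] at h1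
  refine h1.trans (mul_le_mul_left ?_ _)
  refine pow_le_pow_right₀ hPf.le (le_trans ?_ hM)
  exact Finset.single_le_sum (f := E) (fun _ _ => Nat.zero_le _) (Finset.mem_univ i)

lemma exists_top {P : ValuationSubring K} {n : ℕ} (a : Fin n → K) (ha : ∃ i, a i ≠ 0) :
    ∃ i, IsTop P a i := by
  obtain ⟨i₀, hi₀⟩ := ha
  have : Nonempty (Fin n) := ⟨i₀⟩
  obtain ⟨i, hi⟩ := Finite.exists_max (fun i => P.valuation (a i))
  refine ⟨i, fun h0 => ?_, hi⟩
  have h1 := hi i₀
  rw [h0, map_zero, le_zero_iff, map_eq_zero] at h1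
  exact hi₀ h1

/-- **Gluing.** -/
theorem glue (hK : CF k K) (f : K) (hf : Transcendental k f) {n m : ℕ} (a : Fin n → K)
    (b : Fin m → K) (ha : ∃ i, a i ≠ 0) (hb : ∃ j, b j ≠ 0) :
    ∃ (p : Fin 2 → K) (q : Fin (n + m) → K), ∀ P : ValuationSubring K, IsPlace k P → ∀ c : K,
      (f ∈ P → ∃ i, IsTop P a i ∧ P.valuation (a i) = P.valuation c) →
      (f⁻¹ ∈ P → ∃ j, IsTop P b j ∧ P.valuation (b j) = P.valuation c) →
      ∃ i j, IsTop P p i ∧ IsTop P q j ∧ P.valuation (p i * c) = P.valuation (q j) := by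
  have hfi : Transcendental k f⁻¹ := fun h => hf (by
    have := h.inv
    rwa [inv_inv] at this)
  have hf0 : f ≠ 0 := by
    rintro rfl
    exact hf isAlgebraic_zero
  obtain ⟨E₁, hE₁⟩ := growth_tuple hK f hf a b hb
  obtain ⟨E₂, hE₂⟩ := growth_tuple hK f⁻¹ hfi b a ha
  set M := E₁ + E₂ with hM
  refine ⟨![1, f ^ M], Fin.append a (fun j => b j * f ^ M), fun P hP c h0 h1 => ?_⟩
  have hfp : 0 < P.valuation f := val_pos hf0
  rcases lt_trichotomy (P.valuation f) 1 with hlt | heq | hgt
  · -- zeros of `f`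
    obtain ⟨i, hi, hic⟩ := h0 (val_le_one_iff.mp hlt.le)
    refine ⟨0, Fin.castAdd m i, ⟨by simp, ?_⟩, ⟨by simpa using hi.1, ?_⟩, ?_⟩
    · intro i'
      obtain rfl | rfl : i' = 0 ∨ i' = 1 := by fin_cases i' <;> simp
      · exact le_rfl
      · change P.valuation (f ^ M) ≤ P.valuation 1
        rw [map_pow, map_one]
        exact pow_le_one₀ zero_le hlt.le
    · intro j
      rw [Fin.append_left]
      refine Fin.addCases (fun i' => ?_) (fun j' => ?_) j
      · rw [Fin.append_left]
        exact hi.2 i'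
      · rw [Fin.append_right, map_mul, map_pow]
        have hgt' : 1 < P.valuation f⁻¹ := by
          rw [map_inv₀]
          exact (one_lt_inv₀ hfp).mpr hlt
        obtain ⟨i'', hi''⟩ := hE₂ P hP.1 hgt' M (by omega) j'
        rw [map_inv₀, inv_pow] at hi''
        have h8 : 0 < P.valuation f ^ M := pow_pos hfp M
        calc P.valuation (b j') * P.valuation f ^ M ≤
              ((P.valuation f ^ M)⁻¹ * P.valuation (a i'')) * P.valuation f ^ M :=
              mul_le_mul_left hi'' _
          _ = P.valuation (a i'') := by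
              rw [mul_comm, mul_inv_cancel_left₀ h8.ne']
          _ ≤ _ := hi.2 i''
    · rw [Fin.append_left]
      simp [hic]
  · obtain ⟨i, hi, hic⟩ := h0 (val_le_one_iff.mp heq.le)
    obtain ⟨j₀, hj₀, hjc⟩ := h1 (val_le_one_iff.mp (by rw [map_inv₀, heq, inv_one]))
    refine ⟨0, Fin.castAdd m i, ⟨by simp, ?_⟩, ⟨by simpa using hi.1, ?_⟩, ?_⟩
    · intro i'
      obtain rfl | rfl : i' = 0 ∨ i' = 1 := by fin_cases i' <;> simp
      · exact le_rfl
      · change P.valuation (f ^ M) ≤ P.valuation 1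
        rw [map_pow, map_one, heq, one_pow]
    · intro j
      rw [Fin.append_left]
      refine Fin.addCases (fun i' => ?_) (fun j' => ?_) j
      · rw [Fin.append_left]
        exact hi.2 i'
      · rw [Fin.append_right, map_mul, map_pow, heq, one_pow, mul_one, hic, ← hjc]
        exact hj₀.2 j'
    · rw [Fin.append_left]
      simp [hic]
  · have hfi1 : f⁻¹ ∈ P := by
      rw [← val_le_one_iff, map_inv₀]
      exact (inv_le_one₀ hfp).mpr hgt.le
    obtain ⟨j, hj, hjc⟩ := h1 hfi1
    have h8 : 0 < P.valuation f ^ M := pow_pos hfp M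
    refine ⟨1, Fin.natAdd n j, ⟨pow_ne_zero M hf0, ?_⟩, ⟨by
      rw [Fin.append_right]
      exact mul_ne_zero hj.1 (pow_ne_zero M hf0), ?_⟩, ?_⟩
    · intro i'
      obtain rfl | rfl : i' = 0 ∨ i' = 1 := by fin_cases i' <;> simp
      · change P.valuation 1 ≤ P.valuation (f ^ M)
        rw [map_pow, map_one]
        exact one_le_pow₀ hgt.le
      · exact le_rfl
    · intro j'
      rw [Fin.append_right, map_mul, map_pow]
      refine Fin.addCases (fun i' => ?_) (fun j'' => ?_) j'
      · rw [Fin.append_left]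
        obtain ⟨j₁, hj₁⟩ := hE₁ P hP.1 hgt M (by omega) i'
        refine hj₁.trans ?_
        rw [mul_comm]
        exact mul_le_mul_left (hj.2 j₁) _
      · rw [Fin.append_right, map_mul, map_pow]
        exact mul_le_mul_left (hj.2 j'') _
    · rw [Fin.append_right]
      change P.valuation (f ^ M * c) = _
      rw [map_mul, map_mul, hjc, mul_comm]

end Pool.Agent.KS6_77.VJ
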