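import Mathlib

/-!
# The valuative criterion of integral dependence for tuples of functions

If `f` lies, at every valuation ring of `F` over `k`, in the module generated by `g_1, …, g_m`, then
`f` satisfies an equation `f ^ n + a_1 f ^ (n - 1) + ⋯ + a_n = 0` in which `a_i` is a form of degree
`i` in `g_1, …, g_m` with coefficients in `k`.
-/

namespace Pool.Agent.KS6_77.VJ

open MvPolynomial

variable {k F : Type*} [CommRing k] [Field F] [Algebra k F] {ι : Type*}

/-- The substitution `X_j ↦ g_j T`. -/
noncomputable def subT (g : ι → F) : MvPolynomial ι k →ₐ[k] Polynomial F :=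
  aeval (fun j => Polynomial.C (g j) * Polynomial.X)

theorem subT_monomial (g : ι → F) (s : ι →₀ ℕ) (c : k) :
    subT g (monomial s c) =
      Polynomial.C (aeval g (monomial s c)) * Polynomial.X ^ s.degree := by
  classical
  unfold subT
  rw [aeval_monomial, aeval_monomial, map_mul, Finsupp.prod, Finsupp.prod, map_prod,
    Finsupp.degree_apply, ← Finset.prod_pow_eq_pow_sum, mul_assoc, ← Finset.prod_mul_distrib]
  congr 1
  refine Finset.prod_congr rfl fun j _ => ?_
  rw [mul_pow, map_pow]

theorem coeff_subT (g : ι → F) (Q : MvPolynomial ι k) (d : ℕ) :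
    (subT g Q).coeff d = aeval g (homogeneousComponent d Q) := by
  classical
  induction Q using MvPolynomial.induction_on' with
  | monomial s c =>
    rw [subT_monomial, Polynomial.coeff_C_mul, Polynomial.coeff_X_pow]
    by_cases h : s.degree = d
    · subst h
      rw [homogeneousComponent_eq_self (isHomogeneous_monomial c rfl)]
      simp
    · rw [if_neg (fun h' => h h'.symm),
        homogeneousComponent_of_mem (isHomogeneous_monomial c rfl), if_neg (fun h' => h h'.symm)]
      simp
  | add p q hp hq => simp [map_add, hp, hq]

/-- **Valuative criterion with forms.** -/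
theorem exists_forms (g : ι → F) (f : F)
    (H : ∀ W : ValuationSubring F, (∀ a : k, algebraMap k F a ∈ W) → f ≠ 0 →
      ∃ j, g j ≠ 0 ∧ f / g j ∈ W) :
    ∃ n : ℕ, 0 < n ∧ ∃ a : ℕ → MvPolynomial ι k, (∀ i, (a i).IsHomogeneous i) ∧ a 0 = 1 ∧
      ∑ i ∈ Finset.range (n + 1), aeval g (a i) * f ^ (n - i) = 0 := by
  classical
  let K := FractionRing (Polynomial F)
  let ψ : MvPolynomial ι k →+* K := (algebraMap (Polynomial F) K).comp (subT g).toRingHom
  let z : K := algebraMap (Polynomial F) K (Polynomial.C f * Polynomial.X)
  -- `f T` is integral over the ring generated by `k` and the `g_j T`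
  have hint : ψ.IsIntegralElem z := by
    have h1 : z ∈ (integralClosure (Subring.closure (Set.range ψ)) K).toSubring := by
      rw [← iInf_valuationSubring_superset]
      rw [Subring.mem_iInf]
      rintro ⟨V, hV⟩
      change z ∈ V
      let W : ValuationSubring F := V.comap ((algebraMap (Polynomial F) K).comp Polynomial.C)
      have hkW : ∀ a : k, algebraMap k F a ∈ W := by
        intro a
        change algebraMap (Polynomial F) K (Polynomial.C (algebraMap k F a)) ∈ V
        have := hV ⟨MvPolynomial.C a, rfl⟩
        have h2 : ψ (MvPolynomial.C a) =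
            algebraMap (Polynomial F) K (Polynomial.C (algebraMap k F a)) := by
          change algebraMap (Polynomial F) K (subT g (MvPolynomial.C a)) = _
          congr 1
          unfold subT
          rw [aeval_C]
          simp [Polynomial.C_eq_algebraMap, IsScalarTower.algebraMap_apply k F (Polynomial F)]
        rw [h2] at this
        exact this
      by_cases hf : f = 0
      · have : z = 0 := by simp [z, hf]
        rw [this]
        exact V.zero_mem
      obtain ⟨j, hj, hjW⟩ := H W hkW hf
      have h3 : z = algebraMap (Polynomial F) K (Polynomial.C (f / g j)) * ψ (X j) := by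
        change algebraMap (Polynomial F) K _ = algebraMap (Polynomial F) K _ *
          algebraMap (Polynomial F) K (subT g (X j))
        rw [← map_mul]
        congr 1
        unfold subT
        rw [aeval_X, ← mul_assoc, ← Polynomial.C_mul, div_mul_cancel₀ _ hj]
      rw [h3]
      exact V.mul_mem _ _ hjW (hV ⟨X j, rfl⟩)
    have h4 : IsIntegral (Subring.closure (Set.range ψ)) z := h1
    have h5 : Subring.closure (Set.range ψ) = ψ.range := by
      have : (Set.range ψ) = (ψ.range : Set K) := by simp
      rw [this, Subring.closure_eq]
    rw [h5] at h4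
    obtain ⟨p, hp, hp0⟩ := h4
    have hlift : p ∈ Polynomial.lifts ψ.rangeRestrict := by
      rw [Polynomial.lifts_iff_coeff_lifts]
      intro n
      exact ψ.rangeRestrict_surjective _
    obtain ⟨q, hq1, -, hq2⟩ := Polynomial.lifts_and_degree_eq_and_monic hlift hp
    refine ⟨q, hq2, ?_⟩
    rw [← hq1, Polynomial.eval₂_map] at hp0
    exact hp0
  obtain ⟨P, hP, hP0⟩ := hint
  have hP1 : Polynomial.eval₂ (subT g).toRingHom (Polynomial.C f * Polynomial.X) P = 0 := by
    have hinj : Function.Injective (algebraMap (Polynomial F) K) := IsFractionRing.injective _ _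
    apply hinj
    rw [map_zero, ← hP0]
    exact Polynomial.hom_eval₂ P (subT g).toRingHom (algebraMap (Polynomial F) K) _
  set n := P.natDegree with hn
  have hn0 : 0 < n := by
    rcases Nat.eq_zero_or_pos n with h | h
    · exfalso
      have : P = 1 := by
        rw [hn] at h
        exact Polynomial.eq_one_of_monic_natDegree_zero hP h
      rw [this, Polynomial.eval₂_one] at hP1
      exact one_ne_zero hP1
    · exact h
  refine ⟨n, hn0, fun i => homogeneousComponent i (P.coeff (n - i)), fun i =>
    homogeneousComponent_isHomogeneous i _, ?_, ?_⟩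
  · change homogeneousComponent 0 (P.coeff (n - 0)) = 1
    rw [Nat.sub_zero, hn, Polynomial.coeff_natDegree, hP.leadingCoeff, homogeneousComponent_zero]
    simp
  · have h6 := congrArg (fun q : Polynomial F => q.coeff n) hP1
    simp only [Polynomial.coeff_zero] at h6
    rw [Polynomial.eval₂_eq_sum_range, Polynomial.finsetSum_coeff] at h6
    rw [← h6, ← Finset.sum_range_reflect]
    refine Finset.sum_congr rfl fun i hi => ?_
    have hi' : i ≤ n := by simpa [Nat.lt_succ_iff] using hi
    have e1 : n + 1 - 1 - i = n - i := by omega
    rw [e1]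
    have e2 : n - (n - i) = i := by omega
    simp only [e2]
    rw [mul_pow, ← Polynomial.C_pow]
    have e3 : (subT g).toRingHom (P.coeff i) * (Polynomial.C (f ^ i) * Polynomial.X ^ i) =
        (Polynomial.C (f ^ i) * subT g (P.coeff i)) * Polynomial.X ^ i := by
      change subT g (P.coeff i) * _ = _
      ring
    rw [e3]
    have e4 := Polynomial.coeff_mul_X_pow (Polynomial.C (f ^ i) * subT g (P.coeff i)) i (n - i)
    rw [Nat.sub_add_cancel hi'] at e4
    rw [e4, Polynomial.coeff_C_mul, coeff_subT, mul_comm]

end Pool.Agent.KS6_77.VJ
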