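import Pool.Agent.KS6_77.VJ.Place

/-!
# The Dedekind models of a function field
-/

namespace Pool.Agent.KS6_77.VJ

open IntermediateField algebraAdjoinAdjoin

variable {k F : Type} [Field k] [Field F] [Algebra k F]

theorem adjoin_pid (s : F) (hs : Transcendental k s) :
    IsPrincipalIdealRing (Algebra.adjoin k {s}) := by
  have h1 : (Polynomial.aeval s : Polynomial k →ₐ[k] F).range = Algebra.adjoin k {s} :=
    (Algebra.adjoin_singleton_eq_range_aeval k s).symm
  let g : Polynomial k →ₐ[k] Algebra.adjoin k {s} :=
    (Polynomial.aeval s : Polynomial k →ₐ[k] F).codRestrict _ (fun p => by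
      rw [← h1]; exact ⟨p, rfl⟩)
  have hg : Function.Surjective g := by
    rintro ⟨y, hy⟩
    rw [← h1] at hy
    obtain ⟨p, hp⟩ := hy
    exact ⟨p, Subtype.ext hp⟩
  exact IsPrincipalIdealRing.of_surjective g.toRingHom hg

theorem adjoin_dedekind (s : F) (hs : Transcendental k s) :
    IsDedekindDomain (Algebra.adjoin k {s}) := by
  have := adjoin_pid s hs
  infer_instance

variable [CharZero k]

theorem model_dedekind (h : CF k F) (s : F) (hs : Transcendental k s) :
    IsDedekindDomain (integralClosure (Algebra.adjoin k {s}) F) := by
  have := adjoin_dedekind s hs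
  have := h.fin s hs
  exact integralClosure.isDedekindDomain (Algebra.adjoin k {s}) (L := F)
    (IntermediateField.adjoin k {s})

theorem model_frac (h : CF k F) (s : F) (hs : Transcendental k s) :
    IsFractionRing (integralClosure (Algebra.adjoin k {s}) F) F := by
  have := adjoin_dedekind s hs
  have := h.fin s hs
  exact integralClosure.isFractionRing_of_finite_extension (IntermediateField.adjoin k {s}) F

theorem model_ft (h : CF k F) (s : F) (hs : Transcendental k s) :
    ∃ S : Finset F, (∀ x ∈ S, IsIntegral (Algebra.adjoin k {s}) x) ∧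
      ∀ y : F, IsIntegral (Algebra.adjoin k {s}) y → y ∈ Algebra.adjoin k (S : Set F) := by
  classical
  have := adjoin_dedekind s hs
  have := h.fin s hs
  have hf : Module.Finite (Algebra.adjoin k {s}) (integralClosure (Algebra.adjoin k {s}) F) :=
    IsIntegralClosure.finite (Algebra.adjoin k {s}) (IntermediateField.adjoin k {s}) F
      (integralClosure (Algebra.adjoin k {s}) F)
  obtain ⟨T, hT⟩ := hf.fg_top
  refine ⟨insert s (T.image Subtype.val), ?_, ?_⟩
  · intro x hx
    rw [Finset.mem_insert, Finset.mem_image] at hx
    rcases hx with rfl | ⟨b, -, rfl⟩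
    · have : x = algebraMap (Algebra.adjoin k {x}) F
          ⟨x, Algebra.subset_adjoin (Set.mem_singleton x)⟩ := rfl
      rw [this]
      exact isIntegral_algebraMap
    · exact b.2
  · intro y hy
    have h1 : (⟨y, hy⟩ : integralClosure (Algebra.adjoin k {s}) F) ∈
        Submodule.span (Algebra.adjoin k {s}) (T : Set _) := by rw [hT]; trivial
    have h2 : ∀ z : integralClosure (Algebra.adjoin k {s}) F,
        z ∈ Submodule.span (Algebra.adjoin k {s}) (T : Set _) →
        (z : F) ∈ Algebra.adjoin k
          ((insert s (T.image Subtype.val) : Finset F) : Set F) := by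
      intro z hz
      induction hz using Submodule.span_induction with
      | mem z hz =>
        apply Algebra.subset_adjoin
        rw [Finset.coe_insert, Finset.coe_image]
        exact Set.mem_insert_of_mem _ ⟨z, hz, rfl⟩
      | zero => exact Subalgebra.zero_mem _
      | add z w _ _ hz hw => exact Subalgebra.add_mem _ hz hw
      | smul a z _ hz =>
        have h3 : ((a • z : integralClosure (Algebra.adjoin k {s}) F) : F) = (a : F) * z := rfl
        rw [h3]
        refine Subalgebra.mul_mem _ ?_ hz
        refine Algebra.adjoin_mono ?_ a.2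
        rw [Set.singleton_subset_iff, Finset.coe_insert]
        exact Set.mem_insert _ _
    exact h2 _ h1

end Pool.Agent.KS6_77.VJ
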