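import Pool.Agent.KS6_77.VJ.CF

/-!
# Places over Dedekind models
-/

namespace Pool.Agent.KS6_77.VJ

open IsDedekindDomain

section gen

variable {F : Type*} [Field F]

lemma val_le_one_iff {O : ValuationSubring F} {x : F} : O.valuation x ≤ 1 ↔ x ∈ O :=
  O.valuation_le_one_iff x

lemma mem_of_algebraMap {A : Type*} [CommRing A] [Algebra A F] {O : ValuationSubring F}
    (h : ∀ a : A, algebraMap A F a ∈ O) (a : A) : O.valuation (algebraMap A F a) ≤ 1 :=
  val_le_one_iff.mpr (h a)

/-- Every valuation ring which contains `A` is a ring of fractions of `A`. -/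
def Dn (A F : Type*) [Field F] [CommRing A] [Algebra A F] : Prop :=
  ∀ O : ValuationSubring F, (∀ a : A, algebraMap A F a ∈ O) → ∀ x ∈ O, ∃ b c : A,
    O.valuation (algebraMap A F b) = 1 ∧ algebraMap A F b * x = algebraMap A F c

variable {A : Type*} [CommRing A] [Algebra A F]

theorem Dn.mono {A' : Type*} [CommRing A'] [Algebra A' F] (h : Dn A F)
    (hle : ∀ a : A, ∃ a' : A', algebraMap A' F a' = algebraMap A F a) : Dn A' F := by
  intro O hO x hx
  obtain ⟨b, c, hb, hc⟩ := h O (fun a => by
    obtain ⟨a', ha'⟩ := hle a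
    rw [← ha']
    exact hO a') x hx
  obtain ⟨b', hb'⟩ := hle b
  obtain ⟨c', hc'⟩ := hle c
  exact ⟨b', c', by rw [hb']; exact hb, by rw [hb', hc']; exact hc⟩

/-- **Local-global principle.** -/
theorem mem_span_of_local (h : Dn A F) (S : Set F) (x : F)
    (hx : ∀ O : ValuationSubring F, (∀ a : A, algebraMap A F a ∈ O) →
      ∃ s ∈ S, s ≠ 0 ∧ x / s ∈ O) : x ∈ Submodule.span A S := by
  by_contra hxS
  let J : Ideal (algebraMap A F).range :=
    { carrier := {b | (b : F) * x ∈ Submodule.span A S}
      add_mem' := by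
        intro b c hb hc
        change ((b : F) + (c : F)) * x ∈ Submodule.span A S
        rw [add_mul]
        exact Submodule.add_mem _ hb hc
      zero_mem' := by
        change (0 : F) * x ∈ Submodule.span A S
        rw [zero_mul]
        exact Submodule.zero_mem _
      smul_mem' := by
        rintro ⟨_, a, rfl⟩ b hb
        change (algebraMap A F a * (b : F)) * x ∈ Submodule.span A S
        rw [mul_assoc, ← Algebra.smul_def]
        exact Submodule.smul_mem _ a hb }
  have hJ : J ≠ ⊤ := by
    intro hJ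
    rw [Ideal.eq_top_iff_one] at hJ
    apply hxS
    have h1 : (1 : F) * x ∈ Submodule.span A S := hJ
    rwa [one_mul] at h1
  obtain ⟨O, hO, hO'⟩ := Ideal.image_subset_nonunits_valuationSubring J hJ
  have hAO : ∀ a : A, algebraMap A F a ∈ O := fun a => hO ⟨a, rfl⟩
  obtain ⟨s, hs, hs0, hsO⟩ := hx O hAO
  obtain ⟨b, c, hb, hc⟩ := h O hAO _ hsO
  have h1 : (⟨algebraMap A F b, b, rfl⟩ : (algebraMap A F).range) ∈ J := by
    change algebraMap A F b * x ∈ Submodule.span A S
    have h2 : algebraMap A F b * x = c • s := by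
      rw [Algebra.smul_def, ← hc, mul_assoc, div_mul_cancel₀ _ hs0]
    rw [h2]
    exact Submodule.smul_mem _ c (Submodule.subset_span hs)
  have h3 : algebraMap A F b ∈ O.nonunits := hO' ⟨_, h1, rfl⟩
  rw [ValuationSubring.mem_nonunits_iff, hb] at h3
  exact lt_irrefl _ h3

end gen

section ded

variable {F : Type*} [Field F] {A : Type*} [CommRing A] [IsDedekindDomain A] [Algebra A F]
  [IsFractionRing A F]

/-- The center of a place on a Dedekind model. -/
theorem exists_center (O : ValuationSubring F) (hO : ∀ a : A, algebraMap A F a ∈ O)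
    (hO' : O ≠ ⊤) : ∃ v : HeightOneSpectrum A, O = (v.valuation F).valuationSubring ∧
      ∀ a : A, a ∈ v.asIdeal ↔ O.valuation (algebraMap A F a) < 1 := by
  let ι : A →+* O := (algebraMap A F).codRestrict O.toSubring hO
  let P : Ideal A := (IsLocalRing.maximalIdeal O).comap ι
  have hP : P.IsPrime := Ideal.comap_isPrime ι _
  have hmem : ∀ a : A, a ∈ P ↔ O.valuation (algebraMap A F a) < 1 := by
    intro a
    rw [Ideal.mem_comap]
    exact O.valuation_lt_one_iff (ι a)
  have hP0 : P ≠ ⊥ := by
    intro h0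
    apply hO'
    rw [eq_top_iff]
    intro x _
    obtain ⟨a, b, hb, rfl⟩ := IsFractionRing.div_surjective (A := A) x
    have hb0 : b ≠ 0 := nonZeroDivisors.ne_zero hb
    have h1 : ¬ O.valuation (algebraMap A F b) < 1 := by
      rw [← hmem, h0, Ideal.mem_bot]
      exact hb0
    have h2 : O.valuation (algebraMap A F b) = 1 :=
      le_antisymm (val_le_one_iff.mpr (hO b)) (not_lt.mp h1)
    rw [← val_le_one_iff, map_div₀, h2, div_one]
    exact val_le_one_iff.mpr (hO a)
  let v : HeightOneSpectrum A := ⟨P, hP, hP0⟩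
  refine ⟨v, ?_, hmem⟩
  have hle : (v.valuation F).valuationSubring ≤ O := by
    intro x hx
    obtain ⟨n, d, hnd⟩ := HeightOneSpectrum.exists_primeCompl_mul_eq_of_integer v x hx
    have hd : O.valuation (algebraMap A F d) = 1 := by
      refine le_antisymm (val_le_one_iff.mpr (hO _)) (not_lt.mp ?_)
      rw [← hmem]
      exact d.2
    have h1 : O.valuation (x * algebraMap A F d) ≤ 1 := by
      rw [hnd]
      exact val_le_one_iff.mpr (hO n)
    rw [map_mul, hd, mul_one] at h1
    exact val_le_one_iff.mp h1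
  refine (le_antisymm hle ?_).symm
  intro x hx
  by_contra hxv
  rw [Valuation.mem_valuationSubring_iff, not_le] at hxv
  have hx0 : x ≠ 0 := by
    rintro rfl
    rw [map_zero] at hxv
    exact not_lt_of_ge zero_le_one hxv
  have h1 : v.valuation F x⁻¹ < 1 := by
    rw [map_inv₀]
    exact (inv_lt_one₀ (lt_trans zero_lt_one hxv)).mpr hxv
  obtain ⟨n, d, hnd⟩ := HeightOneSpectrum.exists_primeCompl_mul_eq_of_integer v x⁻¹ h1.le
  have hd : v.valuation F (algebraMap A F d) = 1 :=
    HeightOneSpectrum.valuation_eq_one_iff_notMem v |>.mpr d.2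
  have hn : n ∈ v.asIdeal := by
    refine (HeightOneSpectrum.valuation_lt_one_iff_mem (K := F) v n).mp ?_
    change v.valuation F (algebraMap A F n) < 1
    rw [← hnd, map_mul, hd, mul_one]
    exact h1
  have hn' : O.valuation (algebraMap A F n) < 1 := (hmem n).mp hn
  have hd' : O.valuation (algebraMap A F d) = 1 := by
    refine le_antisymm (val_le_one_iff.mpr (hO _)) (not_lt.mp ?_)
    rw [← hmem]
    exact d.2
  rw [← hnd, map_mul, hd', mul_one, map_inv₀] at hn'
  have h2 : O.valuation x ≤ 1 := val_le_one_iff.mpr hx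
  have h3 : 0 < O.valuation x := by
    rw [Valuation.pos_iff]
    exact hx0
  exact absurd hn' (not_lt_of_ge ((one_le_inv₀ h3).mpr h2))

theorem dn_of_dedekind : Dn A F := by
  intro O hO x hx
  by_cases hO' : O = ⊤
  · obtain ⟨a, b, hb, rfl⟩ := IsFractionRing.div_surjective (A := A) x
    have hb0 : algebraMap A F b ≠ 0 := by
      have := nonZeroDivisors.ne_zero hb
      simpa using this
    refine ⟨b, a, ?_, mul_div_cancel₀ _ hb0⟩
    have h1 : (algebraMap A F b)⁻¹ ∈ O := by rw [hO']; exact ValuationSubring.mem_top _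
    rw [← val_le_one_iff, map_inv₀] at h1
    have h2 : 0 < O.valuation (algebraMap A F b) := by
      rw [Valuation.pos_iff]
      exact hb0
    exact le_antisymm (val_le_one_iff.mpr (hO b)) ((inv_le_one₀ h2).mp h1)
  · obtain ⟨v, hv, hmem⟩ := exists_center (A := A) O hO hO'
    have hx' : v.valuation F x ≤ 1 := by
      rw [hv] at hx
      exact hx
    obtain ⟨n, d, hnd⟩ := HeightOneSpectrum.exists_primeCompl_mul_eq_of_integer v x hx'
    refine ⟨d, n, ?_, by rw [mul_comm, hnd]⟩
    refine le_antisymm (val_le_one_iff.mpr (hO _)) (not_lt.mp ?_)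
    rw [← hmem]
    exact d.2

end ded

end Pool.Agent.KS6_77.VJ
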