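import Mathlib

/-!
# The different at tame primes
-/

namespace Pool.Agent.KS6_77.VJ

open nonZeroDivisors Module

set_option linter.unusedSectionVars false

attribute [local instance] FractionRing.liftAlgebra FractionRing.isScalarTower_liftAlgebra

theorem tame (A : Type*) {B : Type*} [CommRing A] [IsDedekindDomain A] [CommRing B]
    [IsDedekindDomain B] [Algebra A B] [Module.Finite A B] [FaithfulSMul A B] [CharZero A]
    {p : Ideal A} [hpm : p.IsMaximal] [CharZero (A ⧸ p)] (P Q : Ideal B)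
    (hPQ : IsCoprime P Q) (hP : P * Q = Ideal.map (algebraMap A B) p) (hP1 : P ≠ ⊤) :
    ¬ P ∣ differentIdeal A B := by
  have : Module.IsTorsionFree A B := inferInstance
  have : CharZero (FractionRing A) :=
    charZero_of_injective_algebraMap (IsFractionRing.injective A (FractionRing A))
  have : IsLocalization (Algebra.algebraMapSubmonoid B A⁰) (FractionRing B) :=
    IsIntegralClosure.isLocalization _ (FractionRing A) _ _
  have : FiniteDimensional (FractionRing A) (FractionRing B) := .of_isLocalization A B A⁰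
  have : Algebra.IsSeparable (FractionRing A) (FractionRing B) := inferInstance
  let : Field (A ⧸ p) := Ideal.Quotient.field p
  let : Algebra (A ⧸ p) (B ⧸ P) := Ideal.Quotient.algebraQuotientOfLEComap (by
      rw [← Ideal.map_le_iff_le_comap, ← hP]
      exact Ideal.mul_le_left)
  let : Algebra (A ⧸ p) (B ⧸ Q) := Ideal.Quotient.algebraQuotientOfLEComap (by
      rw [← Ideal.map_le_iff_le_comap, ← hP]
      exact Ideal.mul_le_right)
  have : IsScalarTower A (A ⧸ p) (B ⧸ P) := .of_algebraMap_eq' rfl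
  have : IsScalarTower A (A ⧸ p) (B ⧸ Q) := .of_algebraMap_eq' rfl
  have : Module.Finite (A ⧸ p) (B ⧸ P) :=
    Module.Finite.of_restrictScalars_finite A (A ⧸ p) (B ⧸ P)
  have : Module.Finite (A ⧸ p) (B ⧸ Q) :=
    Module.Finite.of_restrictScalars_finite A (A ⧸ p) (B ⧸ Q)
  let e : (B ⧸ p.map (algebraMap A B)) ≃ₐ[A ⧸ p] ((B ⧸ P) × B ⧸ Q) :=
    { __ := (Ideal.quotEquivOfEq hP.symm).trans (Ideal.quotientMulEquivQuotientProd P Q hPQ),
      commutes' := Quotient.ind fun _ ↦ rfl }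
  have : Nontrivial (B ⧸ P) := Ideal.Quotient.nontrivial_iff.mpr hP1
  have hx : Algebra.trace (A ⧸ p) (B ⧸ P) 1 ≠ 0 := by
    have h1 : (1 : B ⧸ P) = algebraMap (A ⧸ p) (B ⧸ P) 1 := (map_one _).symm
    rw [h1, Algebra.trace_algebraMap, nsmul_eq_mul, mul_one]
    have h2 : finrank (A ⧸ p) (B ⧸ P) ≠ 0 := finrank_pos.ne'
    exact_mod_cast h2
  obtain ⟨y, hy⟩ := Ideal.Quotient.mk_surjective (e.symm (1, 0))
  refine not_dvd_differentIdeal_of_intTrace_not_mem A P Q hP y ?_ ?_
  · have := congr((e $hy).2)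
    simp at this
    simpa [e, Ideal.Quotient.eq_zero_iff_mem] using this
  · rw [← Ideal.Quotient.eq_zero_iff_mem, ← Algebra.trace_quotient_eq_of_isDedekindDomain,
      hy, Algebra.trace_eq_of_algEquiv, Algebra.trace_prod_apply]
    simpa

lemma exp_succ_le {x : WithZero (Multiplicative ℤ)} (hx : x ≠ 0) {e : ℤ}
    (h : WithZero.exp (-e) < x) : WithZero.exp (-e + 1) ≤ x := by
  obtain ⟨n, rfl⟩ : ∃ n : ℤ, x = WithZero.exp n := ⟨WithZero.log x, (WithZero.exp_log hx).symm⟩
  rw [WithZero.exp_lt_exp] at h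
  rw [WithZero.exp_le_exp]
  omega

/-- The order of the different at a tame prime. -/
theorem exists_delta (A : Type*) {B : Type*} [CommRing A] [IsDedekindDomain A] [CommRing B]
    [IsDedekindDomain B] [Algebra A B] [Module.Finite A B] [FaithfulSMul A B] [CharZero A]
    {m : A} (hm : (Ideal.span {m}).IsMaximal) (hcz : CharZero (A ⧸ Ideal.span {m}))
    (v : IsDedekindDomain.HeightOneSpectrum B) (hM0 : algebraMap A B m ≠ 0)
    (hMv : algebraMap A B m ∈ v.asIdeal) (Δ : Finset B)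
    (hΔ : Ideal.span (Δ : Set B) = differentIdeal A B) :
    ∃ δ ∈ Δ, δ ≠ 0 ∧
      v.intValuation (algebraMap A B m) ≤ v.intValuation δ * WithZero.exp (-1 : ℤ) := by
  classical
  set M : B := algebraMap A B m with hM
  have hmap : (Ideal.span {m}).map (algebraMap A B) = Ideal.span {M} := by
    rw [Ideal.map_span, Set.image_singleton]
  have hMb : (Ideal.span {M} : Ideal B) ≠ ⊥ := by
    rw [Ne, Ideal.span_singleton_eq_bot]
    exact hM0
  have hvm : v.asIdeal.IsMaximal := v.isMaximal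
  obtain ⟨e, Q, hQ1, hQ2⟩ : ∃ (e : ℕ) (Q : Ideal B), v.asIdeal ⊔ Q = ⊤ ∧
      (Ideal.span {M} : Ideal B) = v.asIdeal ^ e * Q :=
    ⟨_, Ideal.eq_prime_pow_mul_coprime hMb v.asIdeal⟩
  have he0 : e ≠ 0 := by
    intro h0
    rw [h0, pow_zero, Ideal.one_eq_top, Ideal.top_mul] at hQ2
    rw [← hQ2, sup_eq_left.mpr] at hQ1
    · exact v.isPrime.ne_top hQ1
    · rw [Ideal.span_singleton_le_iff_mem]
      exact hMv
  have hcop : IsCoprime (v.asIdeal ^ e) Q :=
    (Ideal.isCoprime_iff_sup_eq.mpr hQ1).pow_left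
  have htame := tame A (p := Ideal.span {m}) (v.asIdeal ^ e) Q hcop (by rw [hmap]; exact hQ2.symm)
    (by
      intro h0
      exact v.isPrime.ne_top (top_le_iff.mp (h0 ▸ Ideal.pow_le_self he0)))
  rw [Ideal.dvd_iff_le, ← hΔ, Ideal.span_le, Set.not_subset] at htame
  obtain ⟨δ, hδ, hδv⟩ := htame
  have hδv' : ¬ v.intValuation δ ≤ WithZero.exp (-(e : ℤ)) := by
    rw [v.intValuation_le_pow_iff_mem]
    exact hδv
  have hδ0 : δ ≠ 0 := by
    rintro rfl
    exact hδv (Submodule.zero_mem _)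
  refine ⟨δ, hδ, hδ0, ?_⟩
  have h1 : v.intValuation M ≤ WithZero.exp (-(e : ℤ)) := by
    rw [v.intValuation_le_pow_iff_mem]
    have h2 : M ∈ v.asIdeal ^ e * Q := hQ2 ▸ Ideal.mem_span_singleton_self M
    have h3 : v.asIdeal ^ e * Q ≤ v.asIdeal ^ e := Ideal.mul_le_left
    exact h3 h2
  have h3 : WithZero.exp (-(e : ℤ) + 1) ≤ v.intValuation δ := by
    have h4 : v.intValuation δ ≠ 0 := v.intValuation_ne_zero δ hδ0
    exact exp_succ_le h4 (not_le.mp hδv')
  refine h1.trans ?_
  calc WithZero.exp (-(e : ℤ)) = WithZero.exp (-(e : ℤ) + 1) * WithZero.exp (-1 : ℤ) := by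
        rw [← WithZero.exp_add]
        congr 1
        ring
    _ ≤ _ := mul_le_mul' h3 le_rfl

end Pool.Agent.KS6_77.VJ
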