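import Pool.Agent.KS6_77.VJ.Val
import Pool.Agent.KS6_77.VJ.Tame
import Pool.Agent.KS6_77.VJ.Fin

/-!
# Ramification over the `t`-line and the different
-/

namespace Pool.Agent.KS6_77.VJ

open IsDedekindDomain KS6_16.VJ
open scoped LaurentPolynomial

variable {k F : Type} [Field k] [Field F] [Algebra k F] {t : F}
  {B : Type} [CommRing B] [Algebra k[T;T⁻¹] B] [Algebra B F]

section basic

variable (hT : algebraMap B F (algebraMap k[T;T⁻¹] B (LaurentPolynomial.T 1)) = t)
  (hC : ∀ a : k, algebraMap B F (algebraMap k[T;T⁻¹] B (LaurentPolynomial.C a)) =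
    algebraMap k F a)

include hT hC

lemma laur_poly (q : Polynomial k) :
    algebraMap B F (algebraMap k[T;T⁻¹] B (Polynomial.toLaurent q)) = Polynomial.aeval t q := by
  have h1 : ((algebraMap B F).comp (algebraMap k[T;T⁻¹] B)).comp Polynomial.toLaurent =
      (Polynomial.aeval t : Polynomial k →ₐ[k] F).toRingHom := by
    refine Polynomial.ringHom_ext ?_ ?_
    · intro a
      change algebraMap B F (algebraMap k[T;T⁻¹] B (Polynomial.toLaurent (Polynomial.C a))) =
        Polynomial.aeval t (Polynomial.C a)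
      rw [Polynomial.toLaurent_C, hC, Polynomial.aeval_C]
    · change algebraMap B F (algebraMap k[T;T⁻¹] B (Polynomial.toLaurent Polynomial.X)) =
        Polynomial.aeval t Polynomial.X
      rw [Polynomial.toLaurent_X, hT, Polynomial.aeval_X]
  exact congrArg (fun f : Polynomial k →+* F => f q) h1

lemma laur_T (n : ℕ) :
    algebraMap B F (algebraMap k[T;T⁻¹] B (LaurentPolynomial.T (n : ℤ))) = t ^ n := by
  have h1 := laur_poly hT hC (Polynomial.X ^ n)
  rwa [Polynomial.toLaurent_X_pow, map_pow, Polynomial.aeval_X] at h1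

lemma laur_mem (ht0 : t ≠ 0) {O : ValuationSubring F} (hO : IsPlace k O) (ht : t ∈ O)
    (ht' : t⁻¹ ∈ O) (r : k[T;T⁻¹]) : algebraMap B F (algebraMap k[T;T⁻¹] B r) ∈ O := by
  obtain ⟨n, q, hq⟩ := r.exists_T_pow
  have h1 := laur_poly hT hC q
  rw [hq, map_mul, map_mul, laur_T hT hC] at h1
  have h2 : algebraMap B F (algebraMap k[T;T⁻¹] B r) = Polynomial.aeval t q * (t⁻¹) ^ n := by
    rw [← h1, mul_assoc, ← mul_pow, mul_inv_cancel₀ ht0, one_pow, mul_one]
  rw [h2]
  exact O.mul_mem _ _ (poly_mem hO.1 ht q) (O.toSubring.pow_mem ht' n)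

lemma B_mem [Module.Finite k[T;T⁻¹] B] (ht0 : t ≠ 0) {O : ValuationSubring F}
    (hO : IsPlace k O) (ht : t ∈ O) (ht' : t⁻¹ ∈ O) (b : B) : algebraMap B F b ∈ O := by
  let _ : Algebra k[T;T⁻¹] F := ((algebraMap B F).comp (algebraMap k[T;T⁻¹] B)).toAlgebra
  have : IsScalarTower k[T;T⁻¹] B F := IsScalarTower.of_algebraMap_eq fun _ => rfl
  refine mem_of_isIntegral (R := k[T;T⁻¹]) O (fun r => laur_mem hT hC ht0 hO ht ht' r) ?_
  exact (Algebra.IsIntegral.isIntegral (R := k[T;T⁻¹]) b).algebraMap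

end basic

variable [CharZero k] [IsDedekindDomain B] [Module.Finite k[T;T⁻¹] B] [FaithfulSMul k[T;T⁻¹] B]
  [IsFractionRing B F]

theorem val_ram (hF : CF k F) (htr : Transcendental k t)
    (hT : algebraMap B F (algebraMap k[T;T⁻¹] B (LaurentPolynomial.T 1)) = t)
    (hC : ∀ a : k, algebraMap B F (algebraMap k[T;T⁻¹] B (LaurentPolynomial.C a)) =
      algebraMap k F a) {D' : Derivation k F F} (hD' : D' ≠ 0)
    {O : ValuationSubring F} (hO : IsPlace k O) (ht : t ∈ O) (ht' : t⁻¹ ∈ O) {π : F}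
    (hπ : Unif O π) (Δ : Finset B) (hΔ : Ideal.span (Δ : Set B) = differentIdeal k[T;T⁻¹] B) :
    ∃ δ ∈ Δ, δ ≠ 0 ∧
      O.valuation (D' t / t) ≤ O.valuation (algebraMap B F δ) * O.valuation (D' π) := by
  classical
  have hded := laurent_isDedekind k
  have ht0 : t ≠ 0 := by
    rintro rfl
    exact htr isAlgebraic_zero
  have ht1 : O.valuation t = 1 := by
    refine le_antisymm (val_le_one_iff.mpr ht) ?_
    have h1 := val_le_one_iff.mpr ht'
    rw [map_inv₀] at h1
    exact (inv_le_one₀ (val_pos ht0)).mp h1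
  obtain ⟨v, hv, hmem⟩ := exists_center (A := B) O (B_mem hT hC ht0 hO ht ht') hO.2
  have heq : (v.valuation F).IsEquiv O.valuation := by
    rw [hv]
    exact Valuation.isEquiv_valuation_valuationSubring _
  obtain ⟨μ, hμ0, hμ1, hμ2, hμ3⟩ := exists_min hF hO ht
  have hμt0 : Polynomial.aeval t μ ≠ 0 := fun h => htr ⟨μ, hμ0, h⟩
  set m : k[T;T⁻¹] := Polynomial.toLaurent μ with hm
  set M : B := algebraMap k[T;T⁻¹] B m with hM
  have hMF : algebraMap B F M = Polynomial.aeval t μ := laur_poly hT hC μ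
  have hMv : M ∈ v.asIdeal := by
    rw [hmem, hMF]
    exact hμ1
  have hM0 : M ≠ 0 := by
    intro h0
    rw [h0, map_zero] at hMF
    exact hμt0 hMF.symm
  set p : Ideal k[T;T⁻¹] := Ideal.span {m} with hp
  have hpc : p = v.asIdeal.comap (algebraMap k[T;T⁻¹] B) := by
    refine le_antisymm ?_ ?_
    · rw [hp, Ideal.span_singleton_le_iff_mem]
      exact hMv
    · intro r hr
      rw [Ideal.mem_comap, hmem] at hr
      obtain ⟨n, q, hq⟩ := r.exists_T_pow
      have h1 := laur_poly hT hC q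
      rw [hq, map_mul, map_mul, laur_T hT hC] at h1
      have h2 : O.valuation (Polynomial.aeval t q) < 1 := by
        rw [← h1, map_mul, map_pow, ht1, one_pow, mul_one]
        exact hr
      obtain ⟨q', hq'⟩ := hμ3 q h2
      rw [hp, Ideal.mem_span_singleton]
      have h3 : m ∣ r * LaurentPolynomial.T (n : ℤ) := by
        rw [← hq, hq', map_mul]
        exact dvd_mul_right _ _
      exact (LaurentPolynomial.isUnit_T (R := k) (n : ℤ)).dvd_mul_right.mp h3
  have hm0 : m ≠ 0 := by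
    rw [hm]
    exact Polynomial.toLaurent_ne_zero.mpr hμ0
  have hp0 : p ≠ ⊥ := by
    rw [hp, Ne, Ideal.span_singleton_eq_bot]
    exact hm0
  have hpp : p.IsPrime := by
    rw [hpc]
    exact Ideal.comap_isPrime _ _
  have hpm : p.IsMaximal := hpp.isMaximal hp0
  have hcz : CharZero (k[T;T⁻¹] ⧸ p) := by
    have : Nontrivial (k[T;T⁻¹] ⧸ p) := Ideal.Quotient.nontrivial_iff.mpr hpp.ne_top
    exact charZero_of_injective_algebraMap (algebraMap k (k[T;T⁻¹] ⧸ p)).injective
  have hczR : CharZero k[T;T⁻¹] :=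
    charZero_of_injective_algebraMap (algebraMap k k[T;T⁻¹]).injective
  obtain ⟨δ, hδ, hδ0, hδv⟩ := exists_delta k[T;T⁻¹] hpm hcz v hM0 hMv Δ hΔ
  refine ⟨δ, hδ, hδ0, ?_⟩
  -- comparison of orders
  have h2 : WithZero.exp (-1 : ℤ) ≤ v.valuation F π := by
    obtain ⟨π₀, hπ₀⟩ := v.valuation_exists_uniformizer F
    rw [← hπ₀, heq]
    refine (hπ π₀).mp ?_
    rw [← heq.lt_one_iff_lt_one, hπ₀, ← WithZero.exp_zero, WithZero.exp_lt_exp]
    norm_num
  have h5 : O.valuation (Polynomial.aeval t μ) ≤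
      O.valuation (algebraMap B F δ) * O.valuation π := by
    rw [← map_mul, ← heq, map_mul, ← hMF, v.valuation_of_algebraMap, v.valuation_of_algebraMap]
    exact hδv.trans (mul_le_mul' le_rfl h2)
  have h6 := der_dlog hF hO hD' hπ hμt0 hμ1.ne
  have h7 : D' (Polynomial.aeval t μ) =
      Polynomial.aeval t (Polynomial.derivative μ) * D' t := by
    rw [Derivation.map_aeval, smul_eq_mul]
  rw [h7, map_mul, hμ2, one_mul] at h6
  have hπ0 : O.valuation π ≠ 0 := (val_pos (unif_ne_zero hO.2 hπ)).ne'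
  rw [map_div₀, ht1, div_one]
  refine le_of_mul_le_mul_right ?_ (val_pos (unif_ne_zero hO.2 hπ))
  rw [h6]
  calc O.valuation (Polynomial.aeval t μ) * O.valuation (D' π) ≤
        O.valuation (algebraMap B F δ) * O.valuation π * O.valuation (D' π) :=
        mul_le_mul' h5 le_rfl
    _ = _ := by ac_rfl

end Pool.Agent.KS6_77.VJ
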