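import Pool.Agent.KS6_77.VJ.Ram

/-!
# The special point
-/

namespace Pool.Agent.KS6_77.VJ

open IsDedekindDomain KS6_16.VJ
open scoped LaurentPolynomial

section ram2

variable {k F : Type} [Field k] [CharZero k] [Field F] [Algebra k F]

theorem val_ram2 (hF : CF k F) {t : F} (htr : Transcendental k t) {D' : Derivation k F F}
    (hD' : D' ≠ 0) {O : ValuationSubring F} (hO : IsPlace k O) (ht : t ∈ O) (ht' : t⁻¹ ∈ O)
    {π : F} (hπ : Unif O π) (hr : ∀ p : Polynomial k, ¬ Unif O (Polynomial.aeval t p)) :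
    O.valuation (D' t / t) ≤ O.valuation π * O.valuation (D' π) := by
  have ht0 : t ≠ 0 := by
    rintro rfl
    exact htr isAlgebraic_zero
  have ht1 : O.valuation t = 1 := by
    refine le_antisymm (val_le_one_iff.mpr ht) ?_
    have h1 := val_le_one_iff.mpr ht'
    rw [map_inv₀] at h1
    exact (inv_le_one₀ (val_pos ht0)).mp h1
  obtain ⟨μ, hμ0, hμ1, hμ2, -⟩ := exists_min hF hO ht
  have hμt0 : Polynomial.aeval t μ ≠ 0 := fun h => htr ⟨μ, hμ0, h⟩
  obtain ⟨w, hw, hμw⟩ := unif_div_mem hπ hμ1
  have hw1 : O.valuation w < 1 := by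
    rw [lt_iff_le_and_ne]
    refine ⟨val_le_one_iff.mpr hw, fun h1 => hr μ ?_⟩
    intro y
    rw [hμw, map_mul, h1, mul_one]
    exact hπ y
  have hw2 : O.valuation w ≤ O.valuation π := (hπ w).mp hw1
  have h6 := der_dlog hF hO hD' hπ hμt0 hμ1.ne
  have h7 : D' (Polynomial.aeval t μ) =
      Polynomial.aeval t (Polynomial.derivative μ) * D' t := by
    rw [Derivation.map_aeval, smul_eq_mul]
  rw [h7, map_mul, hμ2, one_mul] at h6
  rw [map_div₀, ht1, div_one]
  refine le_of_mul_le_mul_right ?_ (val_pos (unif_ne_zero hO.2 hπ))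
  rw [h6, hμw, map_mul]
  calc O.valuation π * O.valuation w * O.valuation (D' π) ≤
        O.valuation π * O.valuation π * O.valuation (D' π) :=
        mul_le_mul' (mul_le_mul' le_rfl hw2) le_rfl
    _ = _ := by ac_rfl

end ram2

section spec

variable {k K F : Type} [Field k] [CharZero k] [Field K] [Field F] [Algebra k K] [Algebra K F]
  [Algebra k F] [IsScalarTower k K F] [FiniteDimensional K F]
  {B : Type} [CommRing B] [Algebra k[T;T⁻¹] B] [Algebra B F]
  [IsDedekindDomain B] [Module.Finite k[T;T⁻¹] B] [FaithfulSMul k[T;T⁻¹] B]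
  [IsFractionRing B F]

theorem val_special (hK : CF k K) {𝒟 : Set (ValuationSubring K)} {t : F} (hc : Cover k 𝒟 t)
    (hyp : Hyp k 𝒟 t)
    {D : Derivation k K K} {D' : Derivation k F F} (hDne : D' ≠ 0)
    (hD' : ∀ x : K, D' (algebraMap K F x) = algebraMap K F (D x)) {n₁ n₂ n₃ n₄ : ℕ}
    {p : Fin n₁ → K} {q : Fin n₂ → K} {p' : Fin n₃ → K} {q' : Fin n₄ → K}
    (hcan : RepCan k D p q) (hdiv : RepDiv k 𝒟 p' q')
    (hT : algebraMap B F (algebraMap k[T;T⁻¹] B (LaurentPolynomial.T 1)) = t)
    (hC : ∀ a : k, algebraMap B F (algebraMap k[T;T⁻¹] B (LaurentPolynomial.C a)) =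
      algebraMap k F a) :
    ∃ (P : Ideal B) (S : Finset B), P.IsMaximal ∧ (∀ s ∈ S, s ∈ P) ∧ (∃ s ∈ S, s ≠ 0) ∧
      ∀ O : ValuationSubring F, IsPlace k O → t ∈ O → t⁻¹ ∈ O →
        ∃ j j', ∃ s ∈ S, q j ≠ 0 ∧ q' j' ≠ 0 ∧ s ≠ 0 ∧ ∀ i i',
          O.valuation (D' t / t * algebraMap K F (p i) * algebraMap K F (p' i')) ≤
            O.valuation (algebraMap K F (q j) * algebraMap K F (q' j') * algebraMap B F s) := by
  classical
  have hF : CF k F := hK.ext
  have ht0 : t ≠ 0 := by
    rintro rfl
    exact hc.1 isAlgebraic_zero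
  obtain ⟨O₀, hO₀, ht, ht', hyp⟩ := hyp
  obtain ⟨v₀, hv₀, hmem₀⟩ := exists_center (A := B) O₀ (B_mem hT hC ht0 hO₀ ht ht') hO₀.2
  have hfg : v₀.asIdeal.FG := IsNoetherian.noetherian v₀.asIdeal
  obtain ⟨S, hS⟩ := hfg
  have hS0 : ∃ s ∈ S, s ≠ 0 := by
    by_contra hcon
    push Not at hcon
    apply v₀.ne_bot
    rw [eq_bot_iff, ← hS, Submodule.span_le]
    intro s hs
    exact hcon s hs
  refine ⟨v₀.asIdeal, S, v₀.isMaximal, fun s hs => hS ▸ Submodule.subset_span hs, hS0, ?_⟩
  intro O hO htO htO'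
  obtain ⟨v, hv, hmem⟩ := exists_center (A := B) O (B_mem hT hC ht0 hO htO htO') hO.2
  by_cases hvv : v = v₀
  · -- the special place
    have hOO : O = O₀ := by rw [hv, hv₀, hvv]
    subst hOO
    obtain ⟨z, hz, hz', j, hj, hcj⟩ := core_can hK hc hD' hcan hO
    obtain ⟨j', hj', hd1, hd2⟩ := core_div hdiv hO hz
    have hzF := hz' htO htO'
    set π : F := algebraMap K F z with hπ
    have hπ0 : 0 < O.valuation π := val_pos (unif_ne_zero hO.2 hzF)
    obtain ⟨s, hs, hsπ⟩ : ∃ s ∈ S, O.valuation π ≤ O.valuation (algebraMap B F s) := by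
      by_contra hcon
      push Not at hcon
      obtain ⟨b, c, hb, hbc⟩ := dn_of_dedekind (A := B) (F := F) O
        (B_mem hT hC ht0 hO htO htO') π (val_le_one_iff.mp (unif_lt_one hzF).le)
      have hc1 : O.valuation (algebraMap B F c) = O.valuation π := by
        rw [← hbc, map_mul, hb, one_mul]
      have hcS : c ∈ Submodule.span B (S : Set B) := by
        have h1 : c ∈ Ideal.span (S : Set B) := by
          rw [hS, hmem₀, hc1]
          exact unif_lt_one hzF
        exact h1
      have h1 : O.valuation (algebraMap B F c) < O.valuation π := by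
        refine Submodule.span_induction (p := fun x _ =>
          O.valuation (algebraMap B F x) < O.valuation π) ?_ ?_ ?_ ?_ hcS
        · exact fun x hx => hcon x hx
        · rw [map_zero, map_zero]
          exact hπ0
        · intro x y _ _ hx hy
          rw [map_add]
          exact Valuation.map_add_lt _ hx hy
        · intro a x _ hx
          rw [smul_eq_mul, map_mul, map_mul]
          exact lt_of_le_of_lt (mul_le_of_le_one_left'
            (val_le_one_iff.mpr (B_mem hT hC ht0 hO htO htO' a))) hx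
      rw [hc1] at h1
      exact lt_irrefl _ h1
    have hs0 : s ≠ 0 := by
      rintro rfl
      rw [map_zero, map_zero] at hsπ
      exact absurd hπ0 (not_lt_of_ge hsπ)
    refine ⟨j, j', s, hs, hj, hj', hs0, fun i i' => ?_⟩
    rw [map_mul, map_mul, map_mul, map_mul]
    rcases hyp with hm | hr
    · calc O.valuation (D' t / t) * O.valuation (algebraMap K F (p i)) *
          O.valuation (algebraMap K F (p' i'))
        ≤ O.valuation (D' π) * O.valuation (algebraMap K F (p i)) *
          (O.valuation π * O.valuation (algebraMap K F (q' j'))) :=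
          mul_le_mul' (mul_le_mul' (val_unit hF hO htO htO' hzF) le_rfl) (hd2 hm i')
        _ = (O.valuation (algebraMap K F (p i)) * O.valuation (D' π)) *
          O.valuation (algebraMap K F (q' j')) * O.valuation π := by ac_rfl
        _ ≤ _ := mul_le_mul' (mul_le_mul' (hcj i) le_rfl) hsπ
    · calc O.valuation (D' t / t) * O.valuation (algebraMap K F (p i)) *
          O.valuation (algebraMap K F (p' i'))
        ≤ (O.valuation π * O.valuation (D' π)) * O.valuation (algebraMap K F (p i)) *
          O.valuation (algebraMap K F (q' j')) :=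
          mul_le_mul' (mul_le_mul' (val_ram2 hF hc.1 hDne hO htO htO' hzF hr) le_rfl) (hd1 i')
        _ = (O.valuation (algebraMap K F (p i)) * O.valuation (D' π)) *
          O.valuation (algebraMap K F (q' j')) * O.valuation π := by ac_rfl
        _ ≤ _ := mul_le_mul' (mul_le_mul' (hcj i) le_rfl) hsπ
  · obtain ⟨s, hs, hsv⟩ : ∃ s ∈ S, s ∉ v.asIdeal := by
      by_contra hcon
      push Not at hcon
      apply hvv
      have h1 : v₀.asIdeal ≤ v.asIdeal := by
        rw [← hS, Submodule.span_le]
        exact hcon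
      have h2 : v₀.asIdeal = v.asIdeal := v₀.isMaximal.eq_of_le v.isPrime.ne_top h1
      exact (HeightOneSpectrum.ext h2).symm
    have hs1 : O.valuation (algebraMap B F s) = 1 := by
      refine le_antisymm (val_le_one_iff.mpr (B_mem hT hC ht0 hO htO htO' s)) (not_lt.mp ?_)
      rw [← hmem]
      exact hsv
    have hs0 : s ≠ 0 := by
      rintro rfl
      exact hsv v.asIdeal.zero_mem
    obtain ⟨j, j', hj, hj', hmain⟩ := val_main hK hc hDne hD' hcan hdiv hO
    refine ⟨j, j', s, hs, hj, hj', hs0, fun i i' => ?_⟩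
    rw [map_mul O.valuation _ (algebraMap B F s), hs1, mul_one]
    exact hmain i i'

end spec

end Pool.Agent.KS6_77.VJ
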